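import Mathlib

set_option autoImplicit false

namespace Pool.Agent.Lib.MP_687f9e_an

open Filter Topology

/-- The norm used here: the sum of the absolute values of all entries. -/
def nrm {d : ℕ} (M : Matrix (Fin d) (Fin d) ℝ) : ℝ := ∑ i, ∑ j, |M i j|

/-- `prodSeq A x n` is the product of `A (x (n-1))`, ..., `A (x 1)`, `A (x 0)` in this order. -/
def prodSeq {d : ℕ} {ι : Type} (A : ι → Matrix (Fin d) (Fin d) ℝ) (x : ℕ → ι) :
    ℕ → Matrix (Fin d) (Fin d) ℝ
  | 0 => 1
  | n + 1 => A (x n) * prodSeq A x n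

/-- The joint spectral radius of the family `A`. -/
noncomputable def jsr {d : ℕ} {ι : Type} (A : ι → Matrix (Fin d) (Fin d) ℝ) : ℝ :=
  limsup (fun n : ℕ => (⨆ x : ℕ → ι, nrm (prodSeq A x n)) ^ (1 / (n : ℝ))) atTop

/-- Very weakly extremal sequences. -/
def VeryWeaklyExtremal {d : ℕ} {ι : Type} (A : ι → Matrix (Fin d) (Fin d) ℝ) (x : ℕ → ι) : Prop :=
  limsup (fun n : ℕ => nrm (prodSeq A x n) ^ (1 / (n : ℝ))) atTop = jsr A

/-- The number of subwords of length `n` of the sequence `x`. -/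
noncomputable def complexity {ι : Type} (x : ℕ → ι) (n : ℕ) : ℕ :=
  (Set.range fun k : ℕ => fun i : Fin n => x (k + i)).ncard

/-- The exponential growth rate of the complexity. -/
noncomputable def entropy {ι : Type} (x : ℕ → ι) : ℝ :=
  limsup (fun n : ℕ => Real.log (complexity x n) / n) atTop

section Basic

variable {d : ℕ} {ι : Type} (A : ι → Matrix (Fin d) (Fin d) ℝ)

lemma nrm_nonneg (M : Matrix (Fin d) (Fin d) ℝ) : 0 ≤ nrm M :=
  Finset.sum_nonneg fun _ _ => Finset.sum_nonneg fun _ _ => abs_nonneg _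

lemma nrm_mul_le (M N : Matrix (Fin d) (Fin d) ℝ) : nrm (M * N) ≤ nrm M * nrm N := by
  unfold nrm
  have h1 : ∀ i k, |(M * N) i k| ≤ ∑ j, |M i j| * |N j k| := by
    intro i k
    rw [Matrix.mul_apply]
    refine (Finset.abs_sum_le_sum_abs _ _).trans ?_
    simp [abs_mul]
  calc ∑ i, ∑ k, |(M * N) i k| ≤ ∑ i, ∑ k, ∑ j, |M i j| * |N j k| :=
        Finset.sum_le_sum fun i _ => Finset.sum_le_sum fun k _ => h1 i k
    _ = ∑ i, ∑ j, |M i j| * ∑ k, |N j k| := by
        refine Finset.sum_congr rfl fun i _ => ?_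
        rw [Finset.sum_comm]
        refine Finset.sum_congr rfl fun j _ => ?_
        rw [Finset.mul_sum]
    _ ≤ ∑ i, ∑ j, |M i j| * ∑ j', ∑ k, |N j' k| := by
        refine Finset.sum_le_sum fun i _ => Finset.sum_le_sum fun j _ => ?_
        refine mul_le_mul_of_nonneg_left ?_ (abs_nonneg _)
        exact Finset.single_le_sum (f := fun j' => ∑ k, |N j' k|)
          (fun _ _ => Finset.sum_nonneg fun _ _ => abs_nonneg _) (Finset.mem_univ j)
    _ = (∑ i, ∑ j, |M i j|) * ∑ j', ∑ k, |N j' k| := by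
        rw [Finset.sum_mul]
        refine Finset.sum_congr rfl fun i _ => ?_
        rw [Finset.sum_mul]

lemma prodSeq_congr {x y : ℕ → ι} {n : ℕ} (h : ∀ i < n, x i = y i) :
    prodSeq A x n = prodSeq A y n := by
  induction n with
  | zero => rfl
  | succ n ih =>
    simp only [prodSeq]
    rw [ih fun i hi => h i (by omega), h n (by omega)]

lemma prodSeq_add (x : ℕ → ι) (k n : ℕ) :
    prodSeq A x (k + n) = prodSeq A (fun i => x (k + i)) n * prodSeq A x k := by
  induction n with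
  | zero => simp [prodSeq]
  | succ n ih =>
    rw [← add_assoc]
    simp only [prodSeq]
    rw [ih, mul_assoc]

lemma prodSeq_le {K : ℝ} (hK0 : 0 ≤ K) (hK : ∀ a, nrm (A a) ≤ K) (x : ℕ → ι) (n : ℕ) :
    nrm (prodSeq A x n) ≤ nrm (1 : Matrix (Fin d) (Fin d) ℝ) * K ^ n := by
  induction n with
  | zero => simp [prodSeq]
  | succ n ih =>
    calc nrm (prodSeq A x (n + 1)) ≤ nrm (A (x n)) * nrm (prodSeq A x n) := nrm_mul_le _ _
      _ ≤ K * (nrm (1 : Matrix (Fin d) (Fin d) ℝ) * K ^ n) :=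
        mul_le_mul (hK _) ih (nrm_nonneg _) hK0
      _ = nrm (1 : Matrix (Fin d) (Fin d) ℝ) * K ^ (n + 1) := by ring

lemma exists_bound [Finite ι] : ∃ K : ℝ, 0 ≤ K ∧ ∀ a, nrm (A a) ≤ K := by
  obtain ⟨K, hK⟩ := (Set.finite_range fun a => nrm (A a)).bddAbove
  exact ⟨max K 0, le_max_right _ _, fun a => (hK ⟨a, rfl⟩).trans (le_max_left _ _)⟩

lemma bddAbove_range [Finite ι] (n : ℕ) :
    BddAbove (Set.range fun x : ℕ → ι => nrm (prodSeq A x n)) := by
  obtain ⟨K, hK0, hK⟩ := exists_bound A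
  refine ⟨nrm (1 : Matrix (Fin d) (Fin d) ℝ) * K ^ n, ?_⟩
  rintro _ ⟨x, rfl⟩
  exact prodSeq_le A hK0 hK x n

lemma le_sup [Finite ι] (x : ℕ → ι) (n : ℕ) :
    nrm (prodSeq A x n) ≤ ⨆ y : ℕ → ι, nrm (prodSeq A y n) :=
  le_ciSup (bddAbove_range A n) x

lemma sup_le [Finite ι] {K : ℝ} (hK0 : 0 ≤ K) (hK : ∀ a, nrm (A a) ≤ K) (n : ℕ) :
    (⨆ y : ℕ → ι, nrm (prodSeq A y n)) ≤ nrm (1 : Matrix (Fin d) (Fin d) ℝ) * K ^ n :=
  Real.iSup_le (fun x => prodSeq_le A hK0 hK x n) (mul_nonneg (nrm_nonneg _) (pow_nonneg hK0 _))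

lemma sup_nonneg (n : ℕ) : 0 ≤ ⨆ y : ℕ → ι, nrm (prodSeq A y n) :=
  Real.iSup_nonneg fun _ => nrm_nonneg _

lemma root_le {K c a : ℝ} (hK0 : 0 ≤ K) (hc : 0 ≤ c) (ha : 0 ≤ a) {n : ℕ} (hn : 1 ≤ n)
    (h : a ≤ c * K ^ n) : a ^ (1 / (n : ℝ)) ≤ max 1 c * K := by
  have hn0 : n ≠ 0 := by omega
  have hnpos : (0 : ℝ) < n := by positivity
  calc a ^ (1 / (n : ℝ)) ≤ (c * K ^ n) ^ (1 / (n : ℝ)) :=
        Real.rpow_le_rpow ha h (by positivity)
    _ = c ^ (1 / (n : ℝ)) * (K ^ n) ^ (1 / (n : ℝ)) :=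
        Real.mul_rpow hc (pow_nonneg hK0 _)
    _ = c ^ (1 / (n : ℝ)) * K := by
        rw [one_div, Real.pow_rpow_inv_natCast hK0 hn0]
    _ ≤ max 1 c * K := by
        refine mul_le_mul_of_nonneg_right ?_ hK0
        rcases le_total c 1 with h1 | h1
        · exact (Real.rpow_le_one hc h1 (by positivity)).trans (le_max_left _ _)
        · refine le_trans ?_ (le_max_right _ _)
          calc c ^ (1 / (n : ℝ)) ≤ c ^ (1 : ℝ) := by
                refine Real.rpow_le_rpow_of_exponent_le h1 ?_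
                rw [div_le_one hnpos]
                exact_mod_cast hn
            _ = c := Real.rpow_one c

lemma bounded_sup [Finite ι] : IsBoundedUnder (· ≤ ·) atTop
    (fun n : ℕ => (⨆ x : ℕ → ι, nrm (prodSeq A x n)) ^ (1 / (n : ℝ))) := by
  obtain ⟨K, hK0, hK⟩ := exists_bound A
  refine ⟨max 1 (nrm (1 : Matrix (Fin d) (Fin d) ℝ)) * K, ?_⟩
  rw [eventually_map]
  filter_upwards [eventually_ge_atTop 1] with n hn
  exact root_le hK0 (nrm_nonneg _) (sup_nonneg A n) hn (sup_le A hK0 hK n)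

lemma bounded_seq [Finite ι] (x : ℕ → ι) : IsBoundedUnder (· ≤ ·) atTop
    (fun n : ℕ => nrm (prodSeq A x n) ^ (1 / (n : ℝ))) := by
  obtain ⟨K, hK0, hK⟩ := exists_bound A
  refine ⟨max 1 (nrm (1 : Matrix (Fin d) (Fin d) ℝ)) * K, ?_⟩
  rw [eventually_map]
  filter_upwards [eventually_ge_atTop 1] with n hn
  exact root_le hK0 (nrm_nonneg _) (nrm_nonneg _) hn (prodSeq_le A hK0 hK x n)

lemma cobounded_seq (x : ℕ → ι) : IsCoboundedUnder (· ≤ ·) atTop
    (fun n : ℕ => nrm (prodSeq A x n) ^ (1 / (n : ℝ))) :=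
  isCoboundedUnder_le_of_le atTop (x := 0) fun _ => Real.rpow_nonneg (nrm_nonneg _) _

lemma cobounded_sup : IsCoboundedUnder (· ≤ ·) atTop
    (fun n : ℕ => (⨆ x : ℕ → ι, nrm (prodSeq A x n)) ^ (1 / (n : ℝ))) :=
  isCoboundedUnder_le_of_le atTop (x := 0) fun _ => Real.rpow_nonneg (sup_nonneg A _) _

lemma jsr_nonneg [Finite ι] : 0 ≤ jsr A :=
  le_limsup_of_frequently_le (Frequently.of_forall fun _ => Real.rpow_nonneg (sup_nonneg A _) _)
    (bounded_sup A)

lemma le_jsr [Finite ι] {c : ℝ} (hc : 0 ≤ c) (x : ℕ → ι)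
    (h : ∀ n, 1 ≤ n → c ^ n ≤ nrm (prodSeq A x n)) : c ≤ jsr A := by
  refine le_limsup_of_frequently_le (Eventually.frequently ?_) (bounded_sup A)
  filter_upwards [eventually_ge_atTop 1] with n hn
  have hn0 : n ≠ 0 := by omega
  calc c = (c ^ n) ^ (1 / (n : ℝ)) := by rw [one_div, Real.pow_rpow_inv_natCast hc hn0]
    _ ≤ (⨆ x : ℕ → ι, nrm (prodSeq A x n)) ^ (1 / (n : ℝ)) :=
      Real.rpow_le_rpow (pow_nonneg hc _) ((h n hn).trans (le_sup A x n)) (by positivity)

lemma limsup_le_jsr [Finite ι] (x : ℕ → ι) :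
    limsup (fun n : ℕ => nrm (prodSeq A x n) ^ (1 / (n : ℝ))) atTop ≤ jsr A := by
  refine limsup_le_limsup (Eventually.of_forall fun n => ?_) (cobounded_seq A x) (bounded_sup A)
  exact Real.rpow_le_rpow (nrm_nonneg _) (le_sup A x n) (by positivity)

lemma vwe_of_le [Finite ι] (x : ℕ → ι)
    (h : ∀ n, 1 ≤ n → jsr A ^ n ≤ nrm (prodSeq A x n)) : VeryWeaklyExtremal A x := by
  refine le_antisymm (limsup_le_jsr A x) ?_
  refine le_limsup_of_frequently_le (Eventually.frequently ?_) (bounded_seq A x)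
  filter_upwards [eventually_ge_atTop 1] with n hn
  have hn0 : n ≠ 0 := by omega
  calc jsr A = (jsr A ^ n) ^ (1 / (n : ℝ)) := by
        rw [one_div, Real.pow_rpow_inv_natCast (jsr_nonneg A) hn0]
    _ ≤ nrm (prodSeq A x n) ^ (1 / (n : ℝ)) :=
      Real.rpow_le_rpow (pow_nonneg (jsr_nonneg A) _) (h n hn) (by positivity)

lemma frequently_of_vwe {x : ℕ → ι} (hx : VeryWeaklyExtremal A x) {r : ℝ} (hr : 0 ≤ r)
    (hr' : r < jsr A) : ∃ᶠ n in atTop, r ^ n ≤ nrm (prodSeq A x n) := by
  have h1 : ∃ᶠ n in atTop, r < nrm (prodSeq A x n) ^ (1 / (n : ℝ)) :=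
    frequently_lt_of_lt_limsup (cobounded_seq A x) (by rw [hx]; exact hr')
  refine (h1.and_eventually (eventually_ge_atTop 1)).mono ?_
  rintro n ⟨hn1, hn⟩
  have hn0 : n ≠ 0 := by omega
  calc r ^ n ≤ (nrm (prodSeq A x n) ^ (1 / (n : ℝ))) ^ n :=
        pow_le_pow_left₀ hr hn1.le n
    _ = nrm (prodSeq A x n) := by
        rw [one_div, Real.rpow_inv_natCast_pow (nrm_nonneg _) hn0]

end Basic

/-- Sequential compactness of the sequence space over a finite alphabet. -/
lemma exists_limit {ι : Type} [Finite ι] (f : ℕ → ℕ → ι) :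
    ∃ x : ℕ → ι, ∀ n, ∃ᶠ j in atTop, ∀ i < n, f j i = x i := by
  classical
  let U : Ultrafilter ℕ := hyperfilter ℕ
  have hU : (U : Filter ℕ) ≤ atTop := by
    rw [← Nat.cofinite_eq_atTop]
    exact hyperfilter_le_cofinite
  have h1 : ∀ i, ∃ a : ι, ∀ᶠ j in (U : Filter ℕ), f j i = a := by
    intro i
    by_contra hcon
    push Not at hcon
    have h2 : ∀ a : ι, ∀ᶠ j in (U : Filter ℕ), ¬ f j i = a := fun a => hcon a
    have h3 : ∀ᶠ j in (U : Filter ℕ), ∀ a : ι, ¬ f j i = a := eventually_all.mpr h2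
    obtain ⟨j, hj⟩ := h3.exists
    exact hj _ rfl
  choose x hx using h1
  refine ⟨x, fun n => ?_⟩
  have h4 : ∀ᶠ j in (U : Filter ℕ), ∀ i ∈ Finset.range n, f j i = x i :=
    (Finset.eventually_all _).mpr fun i _ => hx i
  refine (h4.frequently.filter_mono hU).mono fun j hj i hi => hj i (Finset.mem_range.mpr hi)

/-- Every window of `x` is a window of `u`. -/
def Sub {ι : Type} (x u : ℕ → ι) : Prop := ∀ p n, ∃ q, ∀ i < n, x (p + i) = u (q + i)

section LemmaG

variable {d : ℕ} {ι : Type} (A : ι → Matrix (Fin d) (Fin d) ℝ)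

/-- If every sequence of a shift invariant set `P` has a bad time in `[1, L]`, then all norms
along the sequences of `P` are at most `C r ^ N`. -/
lemma key_bound [Finite ι] {r : ℝ} (hr : 0 < r) (L : ℕ) (P : (ℕ → ι) → Prop)
    (hP : ∀ x, P x → ∀ n, P fun i => x (n + i))
    (hcon : ∀ x, P x → ∃ n, 1 ≤ n ∧ n ≤ L ∧ nrm (prodSeq A x n) < r ^ n) :
    ∃ C : ℝ, 0 ≤ C ∧ ∀ N x, P x → nrm (prodSeq A x N) ≤ C * r ^ N := by
  obtain ⟨K₀, hK₀, hK₀'⟩ := exists_bound A
  set K : ℝ := max K₀ r with hKdef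
  have hK0 : 0 ≤ K := hK₀.trans (le_max_left _ _)
  have hK : ∀ a, nrm (A a) ≤ K := fun a => (hK₀' a).trans (le_max_left _ _)
  have hKr : 1 ≤ K / r := by
    rw [one_le_div hr]
    exact le_max_right _ _
  set e : ℝ := nrm (1 : Matrix (Fin d) (Fin d) ℝ) with he
  have he0 : 0 ≤ e := nrm_nonneg _
  set C : ℝ := e * (K / r) ^ L with hC
  have hC0 : 0 ≤ C := by positivity
  refine ⟨C, hC0, ?_⟩
  intro N
  induction N using Nat.strong_induction_on with
  | _ N ih =>
    intro x hx
    rcases le_or_gt N L with hN | hN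
    · calc nrm (prodSeq A x N) ≤ e * K ^ N := prodSeq_le A hK0 hK _ N
        _ = e * (K / r) ^ N * r ^ N := by
            rw [div_pow]
            field_simp
        _ ≤ C * r ^ N := by
            refine mul_le_mul_of_nonneg_right ?_ (by positivity)
            exact mul_le_mul_of_nonneg_left (pow_le_pow_right₀ hKr hN) he0
    · obtain ⟨n, hn1, hnL, hlt⟩ := hcon x hx
      have hNn : N = n + (N - n) := by omega
      have h1 : prodSeq A x N = prodSeq A (fun i => x (n + i)) (N - n) * prodSeq A x n := by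
        conv_lhs => rw [hNn]
        rw [prodSeq_add]
      rw [h1]
      calc nrm (prodSeq A (fun i => x (n + i)) (N - n) * prodSeq A x n)
          ≤ nrm (prodSeq A (fun i => x (n + i)) (N - n)) * nrm (prodSeq A x n) := nrm_mul_le _ _
        _ ≤ (C * r ^ (N - n)) * r ^ n :=
            mul_le_mul (ih (N - n) (by omega) _ (hP x hx n)) hlt.le (nrm_nonneg _) (by positivity)
        _ = C * r ^ N := by
            rw [mul_assoc, ← pow_add]
            congr 2
            omega

lemma good_time [Finite ι] {ρ : ℝ} (u : ℕ → ι)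
    (hu : ∀ r, 0 < r → r < ρ → ∃ᶠ n in atTop, r ^ n ≤ nrm (prodSeq A u n))
    (L : ℕ) {r : ℝ} (hr : 0 < r) (hr' : r < ρ) :
    ∃ k, ∀ n, 1 ≤ n → n ≤ L → r ^ n ≤ nrm (prodSeq A (fun i => u (k + i)) n) := by
  by_contra hcon
  push Not at hcon
  obtain ⟨C, hC0, key⟩ := key_bound A hr L (fun x => ∃ k, x = fun i => u (k + i))
    (by
      rintro x ⟨k, rfl⟩ n
      exact ⟨k + n, by funext i; simp only [add_assoc]⟩)
    (by
      rintro x ⟨k, rfl⟩
      exact hcon k)
  set r' : ℝ := (r + ρ) / 2 with hr'def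
  have h1 : r < r' := by rw [hr'def]; linarith
  have h2 : r' < ρ := by rw [hr'def]; linarith
  have h3 := hu r' (hr.trans h1) h2
  have h4 : Tendsto (fun n : ℕ => (r' / r) ^ n) atTop atTop :=
    tendsto_pow_atTop_atTop_of_one_lt (by rw [one_lt_div hr]; exact h1)
  obtain ⟨n, hn1, hn2⟩ := (h3.and_eventually (h4.eventually_gt_atTop C)).exists
  have h5 : nrm (prodSeq A u n) ≤ C * r ^ n :=
    key n u ⟨0, by funext i; simp⟩
  have h6 : C * r ^ n < r' ^ n := by
    have : r' ^ n = (r' / r) ^ n * r ^ n := by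
      rw [← mul_pow, div_mul_cancel₀ _ hr.ne']
    rw [this]
    exact mul_lt_mul_of_pos_right hn2 (by positivity)
  linarith

lemma limit_extremal [Finite ι] {ρ : ℝ} (r : ℕ → ℝ) (hrt : Tendsto r atTop (𝓝 ρ))
    (X : ℕ → ℕ → ι) (hX : ∀ j n, 1 ≤ n → n ≤ j → (r j) ^ n ≤ nrm (prodSeq A (X j) n)) :
    ∃ x : ℕ → ι, (∀ n, 1 ≤ n → ρ ^ n ≤ nrm (prodSeq A x n)) ∧
      ∀ n, ∃ᶠ j in atTop, ∀ i < n, X j i = x i := by
  obtain ⟨x, hx⟩ := exists_limit X
  refine ⟨x, ?_, hx⟩
  intro n hn
  by_contra hlt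
  push Not at hlt
  have h2 : ∀ᶠ j in atTop, nrm (prodSeq A x n) < (r j) ^ n :=
    (hrt.pow n).eventually (lt_mem_nhds hlt)
  obtain ⟨j, hj, hj2, hj3⟩ :=
    ((hx n).and_eventually (h2.and (eventually_ge_atTop n))).exists
  have h3 := hX j n hn hj3
  rw [prodSeq_congr A hj] at h3
  linarith

lemma exists_radii {ρ : ℝ} (hρ : 0 < ρ) :
    ∃ r : ℕ → ℝ, (∀ j, 0 < r j) ∧ (∀ j, r j < ρ) ∧ Tendsto r atTop (𝓝 ρ) := by
  set r : ℕ → ℝ := fun j => ρ * (1 - 1 / ((j : ℝ) + 2)) with hrdef
  refine ⟨r, ?_, ?_, ?_⟩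
  · intro j
    have : (1 : ℝ) / ((j : ℝ) + 2) < 1 := by
      rw [div_lt_one (by positivity)]
      have : (0 : ℝ) ≤ j := by positivity
      linarith
    exact mul_pos hρ (by linarith)
  · intro j
    have : (0 : ℝ) < 1 / ((j : ℝ) + 2) := by positivity
    have h : ρ * (1 - 1 / ((j : ℝ) + 2)) < ρ * 1 := mul_lt_mul_of_pos_left (by linarith) hρ
    simpa [hrdef] using h
  · have h1 : Tendsto (fun j : ℕ => (1 : ℝ) / ((j : ℝ) + 2)) atTop (𝓝 0) := by
      refine Tendsto.div_atTop tendsto_const_nhds ?_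
      exact tendsto_atTop_add_const_right _ _ tendsto_natCast_atTop_atTop
    have h2 := (h1.const_sub 1).const_mul ρ
    simpa [hrdef] using h2

lemma lemmaG [Finite ι] {ρ : ℝ} (hρ : 0 < ρ) (u : ℕ → ι)
    (hu : ∀ r, 0 < r → r < ρ → ∃ᶠ n in atTop, r ^ n ≤ nrm (prodSeq A u n)) :
    ∃ x : ℕ → ι, (∀ n, 1 ≤ n → ρ ^ n ≤ nrm (prodSeq A x n)) ∧ Sub x u := by
  obtain ⟨r, hr0, hr1, hrt⟩ := exists_radii hρ
  have h1 : ∀ j : ℕ, ∃ k, ∀ n, 1 ≤ n → n ≤ j →
      (r j) ^ n ≤ nrm (prodSeq A (fun i => u (k + i)) n) :=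
    fun j => good_time A u hu j (hr0 j) (hr1 j)
  choose k hk using h1
  obtain ⟨x, hx1, hx⟩ := limit_extremal A r hrt (fun j i => u (k j + i)) hk
  refine ⟨x, hx1, ?_⟩
  intro p n
  obtain ⟨j, hj⟩ := (hx (p + n)).exists
  refine ⟨k j + p, fun i hi => ?_⟩
  rw [← hj (p + i) (by omega), add_assoc]

/-- Every finite nonempty family has a sequence along which the norms are at least the powers of
the joint spectral radius. -/
lemma exists_extremal [Finite ι] [Nonempty ι] :
    ∃ x : ℕ → ι, ∀ n, 1 ≤ n → jsr A ^ n ≤ nrm (prodSeq A x n) := by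
  classical
  obtain ⟨a₀⟩ := (inferInstance : Nonempty ι)
  rcases (jsr_nonneg A).eq_or_lt with hρ | hρ
  · refine ⟨fun _ => a₀, fun n hn => ?_⟩
    rw [← hρ, zero_pow (by omega)]
    exact nrm_nonneg _
  obtain ⟨r, hr0, hr1, hrt⟩ := exists_radii hρ
  have h1 : ∀ j : ℕ, ∃ x : ℕ → ι, ∀ n, 1 ≤ n → n ≤ j → (r j) ^ n ≤ nrm (prodSeq A x n) := by
    intro j
    by_contra hcon
    push Not at hcon
    obtain ⟨C, hC0, key⟩ := key_bound A (hr0 j) j (fun _ => True) (fun _ _ _ => trivial)
      (fun x _ => hcon x)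
    have hlim : Tendsto (fun n : ℕ => (C + 1) ^ (1 / (n : ℝ)) * r j) atTop (𝓝 (1 * r j)) := by
      refine Tendsto.mul_const _ ?_
      have h2 : Tendsto (fun n : ℕ => (1 : ℝ) / (n : ℝ)) atTop (𝓝 0) :=
        tendsto_one_div_atTop_nhds_zero_nat
      have h3 := (Real.continuousAt_const_rpow (a := C + 1) (b := 0)
        (by positivity)).tendsto.comp h2
      simpa [Function.comp_def] using h3
    rw [one_mul] at hlim
    have hle : jsr A ≤ r j := by
      calc jsr A ≤ limsup (fun n : ℕ => (C + 1) ^ (1 / (n : ℝ)) * r j) atTop := by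
            refine limsup_le_limsup ?_ (cobounded_sup A) hlim.isBoundedUnder_le
            filter_upwards [eventually_ge_atTop 1] with n hn
            have hn0 : n ≠ 0 := by omega
            have h4 : (⨆ x : ℕ → ι, nrm (prodSeq A x n)) ≤ (C + 1) * (r j) ^ n := by
              refine Real.iSup_le (fun x => ?_) (by have := hr0 j; positivity)
              refine (key n x trivial).trans ?_
              exact mul_le_mul_of_nonneg_right (by linarith) (pow_nonneg (hr0 j).le _)
            calc (⨆ x : ℕ → ι, nrm (prodSeq A x n)) ^ (1 / (n : ℝ))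
                ≤ ((C + 1) * (r j) ^ n) ^ (1 / (n : ℝ)) :=
                  Real.rpow_le_rpow (sup_nonneg A n) h4 (by positivity)
              _ = (C + 1) ^ (1 / (n : ℝ)) * ((r j) ^ n) ^ (1 / (n : ℝ)) :=
                  Real.mul_rpow (by positivity) (pow_nonneg (hr0 j).le _)
              _ = (C + 1) ^ (1 / (n : ℝ)) * r j := by
                  rw [one_div, Real.pow_rpow_inv_natCast (hr0 j).le hn0]
        _ = r j := hlim.limsup_eq
    exact absurd hle (not_le.mpr (hr1 j))
  choose X hX using h1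
  obtain ⟨x, hx, -⟩ := limit_extremal A r hrt X hX
  exact ⟨x, hx⟩

end LemmaG

section Entropy

variable {ι : Type}

lemma finite_windows [Finite ι] (x : ℕ → ι) (n : ℕ) :
    (Set.range fun k : ℕ => fun i : Fin n => x (k + i)).Finite := Set.toFinite _

lemma complexity_pos [Finite ι] (x : ℕ → ι) (n : ℕ) : 1 ≤ complexity x n := by
  rw [Nat.one_le_iff_ne_zero, complexity, Ne, Set.ncard_eq_zero (finite_windows x n)]
  exact (Set.range_nonempty _).ne_empty

lemma complexity_le [Finite ι] (x : ℕ → ι) (n : ℕ) : complexity x n ≤ Nat.card ι ^ n := by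
  have h1 : complexity x n ≤ (Set.univ : Set (Fin n → ι)).ncard :=
    Set.ncard_le_ncard (Set.subset_univ _) (Set.toFinite _)
  rw [Set.ncard_univ, Nat.card_fun, Nat.card_eq_fintype_card (α := Fin n), Fintype.card_fin] at h1
  exact h1

lemma complexity_mono [Finite ι] {x u : ℕ → ι} (h : Sub x u) (n : ℕ) :
    complexity x n ≤ complexity u n := by
  refine Set.ncard_le_ncard ?_ (finite_windows u n)
  rintro _ ⟨p, rfl⟩
  obtain ⟨q, hq⟩ := h p n
  exact ⟨q, by
    funext i
    exact (hq i i.2).symm⟩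

lemma log_nonneg' [Finite ι] (x : ℕ → ι) (n : ℕ) : 0 ≤ Real.log (complexity x n) / n :=
  div_nonneg (Real.log_nonneg (by exact_mod_cast complexity_pos x n)) (by positivity)

lemma log_le' [Finite ι] (x : ℕ → ι) (n : ℕ) (hn : 1 ≤ n) :
    Real.log (complexity x n) / n ≤ Real.log (Nat.card ι) := by
  have hn0 : (0 : ℝ) < n := by exact_mod_cast hn
  rw [div_le_iff₀ hn0]
  have h1 : (1 : ℝ) ≤ complexity x n := by exact_mod_cast complexity_pos x n
  calc Real.log (complexity x n) ≤ Real.log ((Nat.card ι : ℝ) ^ n) := by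
        refine Real.log_le_log (by linarith) ?_
        exact_mod_cast complexity_le x n
    _ = Real.log (Nat.card ι) * n := by
        rw [Real.log_pow, mul_comm]

lemma bounded_ent [Finite ι] (x : ℕ → ι) : IsBoundedUnder (· ≤ ·) atTop
    (fun n : ℕ => Real.log (complexity x n) / n) := by
  refine ⟨Real.log (Nat.card ι), ?_⟩
  rw [eventually_map]
  filter_upwards [eventually_ge_atTop 1] with n hn
  exact log_le' x n hn

lemma cobounded_ent [Finite ι] (x : ℕ → ι) : IsCoboundedUnder (· ≤ ·) atTop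
    (fun n : ℕ => Real.log (complexity x n) / n) :=
  isCoboundedUnder_le_of_le atTop (x := 0) fun n => log_nonneg' x n

lemma entropy_nonneg [Finite ι] (x : ℕ → ι) : 0 ≤ entropy x :=
  le_limsup_of_frequently_le (Frequently.of_forall fun n => log_nonneg' x n) (bounded_ent x)

lemma entropy_mono [Finite ι] {x u : ℕ → ι} (h : Sub x u) : entropy x ≤ entropy u := by
  refine limsup_le_limsup (Eventually.of_forall fun n => ?_) (cobounded_ent x) (bounded_ent u)
  refine div_le_div_of_nonneg_right ?_ (by positivity)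
  refine Real.log_le_log ?_ (by exact_mod_cast complexity_mono h n)
  exact_mod_cast complexity_pos x n

lemma complexity_comp {κ : Type} (e : ι → κ) (he : Function.Injective e) (x : ℕ → ι) (n : ℕ) :
    complexity (fun i => e (x i)) n = complexity x n := by
  unfold complexity
  have h1 : (Set.range fun k : ℕ => fun i : Fin n => e (x (k + i))) =
      (fun v : Fin n → ι => fun i => e (v i)) ''
        (Set.range fun k : ℕ => fun i : Fin n => x (k + i)) := by
    rw [← Set.range_comp]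
    rfl
  rw [h1, Set.ncard_image_of_injective]
  intro v w hvw
  funext i
  exact he (congrFun hvw i)

lemma entropy_comp {κ : Type} (e : ι → κ) (he : Function.Injective e) (x : ℕ → ι) :
    entropy (fun i => e (x i)) = entropy x := by
  unfold entropy
  simp only [complexity_comp e he]

/-- If all windows of `x` come from concatenations of the words `w b` of length `M`, the
entropy of `x` is at most `log (card β) / M`. -/
lemma entropy_le_of_blocks [Finite ι] {β : Type} [Finite β] (b₀ : β) {M : ℕ} (hM : 1 ≤ M)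
    (w : β → ℕ → ι) (x : ℕ → ι)
    (h : ∀ p n, ∃ (y : ℕ → β) (q : ℕ), ∀ i < n, x (p + i) = w (y ((q + i) / M)) ((q + i) % M)) :
    entropy x ≤ Real.log (Nat.card β) / M := by
  classical
  have hβ : 1 ≤ Nat.card β := Nat.one_le_iff_ne_zero.mpr (Nat.card_ne_zero.mpr ⟨⟨b₀⟩, inferInstance⟩)
  have hcount : ∀ n, complexity x n ≤ M * Nat.card β ^ (n / M + 2) := by
    intro n
    let F : Fin M × (Fin (n / M + 2) → β) → (Fin n → ι) := fun rv i =>
      w (if hlt : ((rv.1 : ℕ) + (i : ℕ)) / M < n / M + 2 then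
        rv.2 ⟨((rv.1 : ℕ) + (i : ℕ)) / M, hlt⟩ else b₀) (((rv.1 : ℕ) + (i : ℕ)) % M)
    have hsub : (Set.range fun k : ℕ => fun i : Fin n => x (k + i)) ⊆ Set.range F := by
      rintro _ ⟨p, rfl⟩
      obtain ⟨y, q, hq⟩ := h p n
      have hMpos : 0 < M := hM
      refine ⟨(⟨q % M, Nat.mod_lt _ hMpos⟩, fun j => y (q / M + j)), ?_⟩
      funext i
      have hi : (i : ℕ) < n := i.2
      have e1 : q + i = M * (q / M) + (q % M + i) := by
        have := Nat.div_add_mod q M
        omega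
      have e2 : (q + i) / M = q / M + (q % M + i) / M := by
        rw [e1, Nat.mul_add_div hMpos]
      have e3 : (q + i) % M = (q % M + i) % M := by
        rw [e1, Nat.mul_add_mod]
      have e4 : (q % M + i) / M < n / M + 2 := by
        have h5 : q % M < M := Nat.mod_lt _ hMpos
        have h6 : (q % M + i) / M ≤ (M + n) / M := Nat.div_le_div_right (by omega)
        have h7 : (M + n) / M = 1 + n / M := by
          rw [Nat.add_div_left _ hMpos]
          omega
        omega
      simp only [F]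
      rw [dif_pos e4, hq i hi, e2, e3]
    calc complexity x n ≤ (Set.range F).ncard := Set.ncard_le_ncard hsub (Set.toFinite _)
      _ ≤ Nat.card (Fin M × (Fin (n / M + 2) → β)) := by
          rw [← Set.image_univ, ← Set.ncard_univ]
          exact Set.ncard_image_le (Set.toFinite _)
      _ = M * Nat.card β ^ (n / M + 2) := by
          simp [Nat.card_prod, Nat.card_fun]
  set l : ℝ := Real.log (Nat.card β) with hl
  have hl0 : 0 ≤ l := Real.log_nonneg (by exact_mod_cast hβ)
  have hMr : (0 : ℝ) < M := by exact_mod_cast hM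
  have hbound : ∀ n : ℕ, 1 ≤ n → Real.log (complexity x n) / n ≤
      (Real.log M + 2 * l) / n + l / M := by
    intro n hn
    have hn0 : (0 : ℝ) < n := by exact_mod_cast hn
    have h1 : (1 : ℝ) ≤ complexity x n := by exact_mod_cast complexity_pos x n
    have h2 : Real.log (complexity x n) ≤ Real.log M + (n / M + 2 : ℕ) * l := by
      calc Real.log (complexity x n) ≤ Real.log ((M : ℝ) * (Nat.card β : ℝ) ^ (n / M + 2)) := by
            refine Real.log_le_log (by linarith) ?_
            exact_mod_cast hcount n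
        _ = Real.log M + (n / M + 2 : ℕ) * l := by
            rw [Real.log_mul hMr.ne' (by positivity), Real.log_pow]
    have h3 : ((n / M + 2 : ℕ) : ℝ) ≤ n / M + 2 := by
      push_cast
      have := @Nat.cast_div_le ℝ _ _ _ n M
      linarith
    rw [div_le_iff₀ hn0]
    have h4 : ((Real.log M + 2 * l) / n + l / M) * n = Real.log M + 2 * l + l / M * n := by
      field_simp
    rw [h4]
    have h5 : (n / M + 2 : ℕ) * l ≤ (n / M + 2) * l := mul_le_mul_of_nonneg_right h3 hl0
    have h6 : ((n : ℝ) / M + 2) * l = l / M * n + 2 * l := by ring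
    linarith
  have hlim : Tendsto (fun n : ℕ => (Real.log M + 2 * l) / (n : ℝ) + l / M) atTop
      (𝓝 (0 + l / M)) :=
    (tendsto_const_nhds.div_atTop tendsto_natCast_atTop_atTop).add_const _
  rw [zero_add] at hlim
  calc entropy x ≤ limsup (fun n : ℕ => (Real.log M + 2 * l) / (n : ℝ) + l / M) atTop := by
        refine limsup_le_limsup ?_ (cobounded_ent x) hlim.isBoundedUnder_le
        filter_upwards [eventually_ge_atTop 1] with n hn
        exact hbound n hn
    _ = l / M := hlim.limsup_eq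

end Entropy

section Stages

variable {d : ℕ} {ι : Type} (A : ι → Matrix (Fin d) (Fin d) ℝ)

/-- The sequence over `ι` obtained from a sequence of words `w b` of length `M`. -/
def unf {β : Type} (M : ℕ) (w : β → ℕ → ι) (y : ℕ → β) : ℕ → ι := fun n => w (y (n / M)) (n % M)

lemma prodSeq_unf {β : Type} {M : ℕ} (hM : 1 ≤ M) (w : β → ℕ → ι) (y : ℕ → β) (n : ℕ) :
    prodSeq A (unf M w y) (M * n) = prodSeq (fun b => prodSeq A (w b) M) y n := by
  induction n with
  | zero => simp [prodSeq]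
  | succ n ih =>
    rw [Nat.mul_succ, prodSeq_add, ih]
    simp only [prodSeq]
    congr 1
    refine prodSeq_congr A fun i hi => ?_
    unfold unf
    rw [Nat.mul_add_div hM, Nat.div_eq_of_lt hi, Nat.mul_add_mod, Nat.mod_eq_of_lt hi, add_zero]

lemma unf_unf {β γ : Type} (M N : ℕ) (w : β → ℕ → ι) (e : γ → ℕ → β) (y : ℕ → γ) :
    unf (M * N) (fun v => unf M w (e v)) y = unf M w (unf N e y) := by
  funext n
  simp only [unf]
  rw [Nat.div_div_eq_div_mul, Nat.mod_mul_right_div_self, Nat.mod_mul_right_mod]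

lemma prodSeq_mem {Γ : Subsemigroup (Matrix (Fin d) (Fin d) ℝ)} (hA : ∀ a, A a ∈ Γ)
    (x : ℕ → ι) (n : ℕ) : prodSeq A x (n + 1) ∈ Γ := by
  induction n with
  | zero => simpa [prodSeq] using hA (x 0)
  | succ n ih => exact Γ.mul_mem (hA _) ih

lemma entropy_const (a : ι) : entropy (fun _ : ℕ => a) = 0 := by
  have h1 : ∀ n, complexity (fun _ : ℕ => a) n = 1 := by
    intro n
    unfold complexity
    rw [Set.range_const, Set.ncard_singleton]
  unfold entropy
  simp [h1]

lemma entropy_unf_le {β γ : Type} [Finite β] [Finite γ] {T : ℕ} (hT : 1 ≤ T) (e : γ → ℕ → β)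
    (y : ℕ → γ) : entropy (unf T e y) ≤ entropy y / T := by
  classical
  have hTpos : 0 < T := hT
  have hTr : (0 : ℝ) < T := by exact_mod_cast hT
  have hcount : ∀ n, complexity (unf T e y) n ≤ T * complexity y (n / T + 2) := by
    intro n
    let F : Fin T × (Fin (n / T + 2) → γ) → (Fin n → β) := fun rv i =>
      e (if hlt : ((rv.1 : ℕ) + (i : ℕ)) / T < n / T + 2 then
        rv.2 ⟨((rv.1 : ℕ) + (i : ℕ)) / T, hlt⟩ else y 0) (((rv.1 : ℕ) + (i : ℕ)) % T)
    have hsub : (Set.range fun k : ℕ => fun i : Fin n => unf T e y (k + i)) ⊆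
        F '' (Set.univ ×ˢ (Set.range fun k : ℕ => fun i : Fin (n / T + 2) => y (k + i))) := by
      rintro _ ⟨q, rfl⟩
      refine ⟨(⟨q % T, Nat.mod_lt _ hTpos⟩, fun j => y (q / T + j)),
        ⟨Set.mem_univ _, ⟨q / T, rfl⟩⟩, ?_⟩
      funext i
      have hi : (i : ℕ) < n := i.2
      have e1 : q + i = T * (q / T) + (q % T + i) := by
        have := Nat.div_add_mod q T
        omega
      have e2 : (q + i) / T = q / T + (q % T + i) / T := by
        rw [e1, Nat.mul_add_div hTpos]
      have e3 : (q + i) % T = (q % T + i) % T := by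
        rw [e1, Nat.mul_add_mod]
      have e4 : (q % T + i) / T < n / T + 2 := by
        have h5 : q % T < T := Nat.mod_lt _ hTpos
        have h6 : (q % T + i) / T ≤ (T + n) / T := Nat.div_le_div_right (by omega)
        have h7 : (T + n) / T = 1 + n / T := by
          rw [Nat.add_div_left _ hTpos]
          omega
        omega
      simp only [F, unf]
      rw [dif_pos e4, e2, e3]
    calc complexity (unf T e y) n ≤ (F '' (Set.univ ×ˢ
          (Set.range fun k : ℕ => fun i : Fin (n / T + 2) => y (k + i)))).ncard :=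
          Set.ncard_le_ncard hsub (Set.toFinite _)
      _ ≤ ((Set.univ : Set (Fin T)) ×ˢ
          (Set.range fun k : ℕ => fun i : Fin (n / T + 2) => y (k + i))).ncard :=
          Set.ncard_image_le (Set.toFinite _)
      _ = T * complexity y (n / T + 2) := by
          rw [Set.ncard_prod, Set.ncard_univ, Nat.card_eq_fintype_card, Fintype.card_fin]
          rfl
  refine le_of_forall_pos_le_add fun ε hε => ?_
  set h' : ℝ := entropy y + ε with hh'
  have hh0 : 0 ≤ h' := add_nonneg (entropy_nonneg y) hε.le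
  have hev : ∀ᶠ k : ℕ in atTop, Real.log (complexity y k) / k < h' :=
    eventually_lt_of_limsup_lt (show entropy y < h' by rw [hh']; linarith) (bounded_ent y)
  have htd : Tendsto (fun n : ℕ => n / T + 2) atTop atTop :=
    tendsto_atTop_mono (fun n => Nat.le_add_right (n / T) 2)
      (Nat.tendsto_div_const_atTop hTpos.ne')
  have hlim : Tendsto (fun n : ℕ => (Real.log T + 2 * h') / (n : ℝ) + h' / T) atTop
      (𝓝 (0 + h' / T)) :=
    (tendsto_const_nhds.div_atTop tendsto_natCast_atTop_atTop).add_const _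
  rw [zero_add] at hlim
  have hle : entropy (unf T e y) ≤ h' / T := by
    calc entropy (unf T e y)
        ≤ limsup (fun n : ℕ => (Real.log T + 2 * h') / (n : ℝ) + h' / T) atTop := by
          refine limsup_le_limsup ?_ (cobounded_ent _) hlim.isBoundedUnder_le
          filter_upwards [eventually_ge_atTop 1, htd.eventually hev] with n hn hk
          have hn0 : (0 : ℝ) < n := by exact_mod_cast hn
          have hk0 : (0 : ℝ) < ((n / T + 2 : ℕ) : ℝ) := by positivity
          rw [div_lt_iff₀ hk0] at hk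
          have h1 : (1 : ℝ) ≤ complexity (unf T e y) n := by
            exact_mod_cast complexity_pos (unf T e y) n
          have h1' : (1 : ℝ) ≤ complexity y (n / T + 2) := by
            exact_mod_cast complexity_pos y (n / T + 2)
          have h2 : Real.log (complexity (unf T e y) n) ≤
              Real.log T + Real.log (complexity y (n / T + 2)) := by
            rw [← Real.log_mul hTr.ne' (by linarith)]
            refine Real.log_le_log (by linarith) ?_
            exact_mod_cast hcount n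
          have h3 : ((n / T + 2 : ℕ) : ℝ) ≤ n / T + 2 := by
            push_cast
            have := @Nat.cast_div_le ℝ _ _ _ n T
            linarith
          have h4 : ((Real.log T + 2 * h') / n + h' / T) * n =
              Real.log T + 2 * h' + h' / T * n := by
            field_simp
          rw [div_le_iff₀ hn0, h4]
          have h5 : h' * ((n / T + 2 : ℕ) : ℝ) ≤ h' * ((n : ℝ) / T + 2) :=
            mul_le_mul_of_nonneg_left h3 hh0
          have h6 : h' * ((n : ℝ) / T + 2) = h' / T * n + 2 * h' := by ring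
          linarith
      _ = h' / T := hlim.limsup_eq
  have hT1 : (1 : ℝ) ≤ T := by exact_mod_cast hT
  have h7 : h' / T = entropy y / T + ε / T := by rw [hh', add_div]
  have h8 : ε / T ≤ ε := div_le_self hε.le hT1
  linarith

/-- A stage: a finite set of words of length `M` over `ι`, with a sequence of such words along
which the norms of the products are at least the powers of `ρ`. -/
structure Stage (ρ : ℝ) where
  β : Type
  fin : Finite β
  M : ℕ
  hM : 1 ≤ M
  w : β → ℕ → ι
  z : ℕ → β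
  hz : ∀ n, 1 ≤ n → (ρ ^ M) ^ n ≤ nrm (prodSeq (fun b => prodSeq A (w b) M) z n)

/-- Every finite family in `Γ` with at least `max 2 m₀` members has a very weakly extremal
sequence of entropy less than `κ` times the maximal possible entropy. -/
def Gap (Γ : Subsemigroup (Matrix (Fin d) (Fin d) ℝ)) (κ : ℝ) (m₀ : ℕ) : Prop :=
  ∀ (β : Type) [Finite β], 2 ≤ Nat.card β → m₀ ≤ Nat.card β →
    ∀ B : β → Matrix (Fin d) (Fin d) ℝ, (∀ b, B b ∈ Γ) →
      ∃ x : ℕ → β, VeryWeaklyExtremal B x ∧ entropy x < κ * Real.log (Nat.card β)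

/-- The word of length `T` given by `v`, continued arbitrarily. -/
def ext {β : Type} {T : ℕ} (b₀ : β) (v : Fin T → β) : ℕ → β :=
  fun j => if h : j < T then v ⟨j, h⟩ else b₀

/-- A very weakly extremal sequence of the family of all products of length `T` gives an extremal
sequence of the family itself, of entropy at most `1 / T` times as large. -/
lemma block_lower {β : Type} [Finite β] (B : β → Matrix (Fin d) (Fin d) ℝ) {T : ℕ} (hT : 1 ≤ T)
    (b₀ : β) (y : ℕ → Fin T → β)
    (hy : VeryWeaklyExtremal (fun v : Fin T → β => prodSeq B (ext b₀ v) T) y) :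
    ∃ z : ℕ → β, (∀ n, 1 ≤ n → jsr B ^ n ≤ nrm (prodSeq B z n)) ∧ entropy z ≤ entropy y / T := by
  classical
  have hne' : Nonempty β := ⟨b₀⟩
  have hTpos : 0 < T := hT
  have hTr : (0 : ℝ) < T := by exact_mod_cast hT
  have hent : entropy (unf T (ext b₀) y) ≤ entropy y / T := entropy_unf_le hT _ y
  rcases (jsr_nonneg B).eq_or_lt with hρ | hρ
  · refine ⟨fun _ => b₀, fun n hn => ?_, ?_⟩
    · rw [← hρ, zero_pow (by omega)]
      exact nrm_nonneg _
    · rw [entropy_const]
      exact (entropy_nonneg _).trans hent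
  obtain ⟨z₀, hz₀⟩ := exists_extremal B
  have hCj : jsr B ^ T ≤ jsr (fun v : Fin T → β => prodSeq B (ext b₀ v) T) := by
    refine le_jsr _ (by positivity) (fun k => fun i : Fin T => z₀ (T * k + i)) ?_
    intro n hn
    have e3 : unf T (ext b₀) (fun k => fun i : Fin T => z₀ (T * k + i)) = z₀ := by
      funext n
      have hlt : n % T < T := Nat.mod_lt _ hTpos
      simp only [unf, ext]
      rw [dif_pos hlt]
      congr 1
      exact Nat.div_add_mod n T
    rw [← pow_mul]
    have h4 := prodSeq_unf B hT (ext b₀) (fun k => fun i : Fin T => z₀ (T * k + i)) n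
    rw [e3] at h4
    have h5 := hz₀ (T * n) (Nat.mul_pos hTpos hn)
    rw [h4] at h5
    exact h5
  obtain ⟨z, hz, hsub⟩ := lemmaG B hρ (unf T (ext b₀) y) (by
    intro r hr hr'
    have h1 : r ^ T < jsr (fun v : Fin T → β => prodSeq B (ext b₀ v) T) :=
      (pow_lt_pow_left₀ hr' hr.le (by omega)).trans_le hCj
    have h2 := frequently_of_vwe _ hy (by positivity) h1
    have h3 : Tendsto (fun n : ℕ => T * n) atTop atTop :=
      tendsto_atTop_mono (fun n => Nat.le_mul_of_pos_left n hTpos) tendsto_id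
    refine h3.frequently (h2.mono fun n hn => ?_)
    rw [prodSeq_unf B hT, pow_mul]
    exact hn)
  exact ⟨z, hz, (entropy_mono hsub).trans hent⟩

lemma block_mem {β : Type} {Γ : Subsemigroup (Matrix (Fin d) (Fin d) ℝ)}
    {B : β → Matrix (Fin d) (Fin d) ℝ} (hB : ∀ b, B b ∈ Γ) {T : ℕ} (hT : 1 ≤ T) (b₀ : β)
    (v : Fin T → β) : prodSeq B (ext b₀ v) T ∈ Γ := by
  have := prodSeq_mem B hB (ext b₀ v) (T - 1)
  rwa [Nat.sub_add_cancel hT] at this

/-- A gap for large families gives a gap for all families with at least two members. -/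
lemma gap_all {Γ : Subsemigroup (Matrix (Fin d) (Fin d) ℝ)} {κ : ℝ} {m₀ : ℕ}
    (gap : Gap Γ κ m₀) (β : Type) [Finite β] (h2 : 2 ≤ Nat.card β)
    (B : β → Matrix (Fin d) (Fin d) ℝ) (hB : ∀ b, B b ∈ Γ) :
    ∃ z : ℕ → β, (∀ n, 1 ≤ n → jsr B ^ n ≤ nrm (prodSeq B z n)) ∧
      entropy z < κ * Real.log (Nat.card β) := by
  classical
  have hne : Nonempty β := by
    by_contra hcon
    rw [not_nonempty_iff] at hcon
    have : Nat.card β = 0 := Nat.card_of_isEmpty
    omega
  obtain ⟨b₀⟩ := hne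
  obtain ⟨T, hTdef⟩ : ∃ T : ℕ, T = m₀ + 1 := ⟨_, rfl⟩
  have hT : 1 ≤ T := by omega
  have hTr : (0 : ℝ) < T := by exact_mod_cast hT
  have hcard : Nat.card (Fin T → β) = Nat.card β ^ T := by
    rw [Nat.card_fun, Nat.card_eq_fintype_card (α := Fin T), Fintype.card_fin]
  have hpow : T < Nat.card β ^ T := Nat.lt_pow_self (by omega)
  obtain ⟨y, hy, hyent⟩ := gap (Fin T → β) (by omega) (by omega)
    (fun v => prodSeq B (ext b₀ v) T) fun v => block_mem hB hT b₀ v
  rw [hcard, Nat.cast_pow, Real.log_pow] at hyent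
  obtain ⟨z, hz, hzent⟩ := block_lower B hT b₀ y hy
  refine ⟨z, hz, hzent.trans_lt ?_⟩
  rw [div_lt_iff₀ hTr]
  linarith

lemma step {Γ : Subsemigroup (Matrix (Fin d) (Fin d) ℝ)} (hA : ∀ a, A a ∈ Γ) {κ : ℝ} {m₀ : ℕ}
    (gap : Gap Γ κ m₀) {ρ : ℝ} (hρ : 0 < ρ) (s : Stage A ρ) :
    ∃ s' : Stage A ρ,
      Real.log (Nat.card s'.β) / s'.M ≤ κ * (Real.log (Nat.card s.β) / s.M) ∧
      ∀ y : ℕ → s'.β, ∃ y' : ℕ → s.β, unf s'.M s'.w y = unf s.M s.w y' := by
  classical
  have := s.fin
  by_cases h2 : 2 ≤ Nat.card s.β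
  · set B : s.β → Matrix (Fin d) (Fin d) ℝ := fun b => prodSeq A (s.w b) s.M with hB
    have hMpos : 0 < s.M := s.hM
    have hBmem : ∀ b, B b ∈ Γ := by
      intro b
      have := prodSeq_mem A hA (s.w b) (s.M - 1)
      rwa [Nat.sub_add_cancel s.hM] at this
    obtain ⟨z', hz', hent'⟩ := gap_all gap s.β h2 B hBmem
    have hjsr : ρ ^ s.M ≤ jsr B := le_jsr B (by positivity) s.z s.hz
    have hev : ∀ᶠ n : ℕ in atTop, Real.log (complexity z' n) / n <
        κ * Real.log (Nat.card s.β) :=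
      eventually_lt_of_limsup_lt hent' (bounded_ent z')
    obtain ⟨N, hN, hN1⟩ := (hev.and (eventually_ge_atTop 1)).exists
    have hNpos : 0 < N := hN1
    let e : {v : Fin N → s.β // v ∈ Set.range fun k : ℕ => fun i : Fin N => z' (k + i)} →
        ℕ → s.β := fun v j => if h : j < N then v.1 ⟨j, h⟩ else z' 0
    let zz : ℕ → {v : Fin N → s.β // v ∈ Set.range fun k : ℕ => fun i : Fin N => z' (k + i)} :=
      fun k => ⟨fun i => z' (N * k + i), ⟨N * k, rfl⟩⟩
    have e3 : unf N e zz = z' := by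
      funext n
      have hlt : n % N < N := Nat.mod_lt _ hNpos
      simp only [unf, e, zz]
      rw [dif_pos hlt]
      congr 1
      exact Nat.div_add_mod n N
    have hzz : ∀ n, 1 ≤ n → (ρ ^ (s.M * N)) ^ n ≤
        nrm (prodSeq (fun v => prodSeq A (unf s.M s.w (e v)) (s.M * N)) zz n) := by
      intro n hn
      have e1 : (fun v => prodSeq A (unf s.M s.w (e v)) (s.M * N)) =
          fun v => prodSeq B (e v) N := by
        funext v
        exact prodSeq_unf A s.hM s.w (e v) N
      rw [e1, ← prodSeq_unf B hN1 e zz n, e3]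
      have hNn : 1 ≤ N * n := Nat.mul_pos hNpos hn
      refine le_trans ?_ (hz' (N * n) hNn)
      calc (ρ ^ (s.M * N)) ^ n = (ρ ^ s.M) ^ (N * n) := by
            rw [← pow_mul, ← pow_mul, mul_assoc]
        _ ≤ jsr B ^ (N * n) := pow_le_pow_left₀ (by positivity) hjsr _
    refine ⟨⟨_, inferInstance, s.M * N, Nat.mul_pos hMpos hNpos, fun v => unf s.M s.w (e v), zz,
      hzz⟩, ?_, ?_⟩
    · have hcard : Nat.card {v : Fin N → s.β // v ∈ Set.range fun k : ℕ =>
          fun i : Fin N => z' (k + i)} = complexity z' N := rfl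
      simp only [hcard]
      have hMr : (0 : ℝ) < s.M := by exact_mod_cast hMpos
      have h5 : Real.log (complexity z' N) / ((s.M * N : ℕ) : ℝ) =
          Real.log (complexity z' N) / N / s.M := by
        push_cast
        rw [div_div, mul_comm (N : ℝ)]
      rw [h5, ← mul_div_assoc]
      exact div_le_div_of_nonneg_right hN.le hMr.le
    · intro y
      exact ⟨unf N e y, unf_unf s.M N s.w e y⟩
  · have h1 : Nat.card s.β = 1 := by
      have : Nat.card s.β ≠ 0 := Nat.card_ne_zero.mpr ⟨⟨s.z 0⟩, inferInstance⟩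
      omega
    refine ⟨s, ?_, fun y => ⟨y, rfl⟩⟩
    rw [h1]
    simp

/-- The main step: a uniform gap gives extremal sequences of entropy zero. -/
lemma core [Finite ι] [Nonempty ι] {Γ : Subsemigroup (Matrix (Fin d) (Fin d) ℝ)}
    (hA : ∀ a, A a ∈ Γ) {κ : ℝ} (hκ0 : 0 ≤ κ) (hκ1 : κ < 1) {m₀ : ℕ} (gap : Gap Γ κ m₀) :
    ∃ x : ℕ → ι, (∀ n, 1 ≤ n → jsr A ^ n ≤ nrm (prodSeq A x n)) ∧ entropy x = 0 := by
  classical
  obtain ⟨a₀⟩ := (inferInstance : Nonempty ι)
  rcases (jsr_nonneg A).eq_or_lt with hρ | hρ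
  · refine ⟨fun _ => a₀, fun n hn => ?_, entropy_const a₀⟩
    rw [← hρ, zero_pow (by omega)]
    exact nrm_nonneg _
  set ρ : ℝ := jsr A with hρdef
  obtain ⟨z₀, hz₀⟩ := exists_extremal A
  let s₀ : Stage A ρ :=
    { β := ι
      fin := inferInstance
      M := 1
      hM := le_refl 1
      w := fun b _ => b
      z := z₀
      hz := by
        intro n hn
        simpa [prodSeq] using hz₀ n hn }
  choose f hf1 hf2 using step A hA gap hρ
  let st : ℕ → Stage A ρ := fun k => f^[k] s₀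
  have hst : ∀ k, st (k + 1) = f (st k) := fun k => Function.iterate_succ_apply' f k s₀
  let L : ℕ → ℝ := fun k => Real.log (Nat.card (st k).β) / (st k).M
  have hL : ∀ k, L k ≤ κ ^ k * L 0 := by
    intro k
    induction k with
    | zero => simp
    | succ k ih =>
      have h1 : L (k + 1) ≤ κ * L k := by
        simp only [L]
        rw [hst k]
        exact hf1 (st k)
      calc L (k + 1) ≤ κ * L k := h1
        _ ≤ κ * (κ ^ k * L 0) := mul_le_mul_of_nonneg_left ih hκ0
        _ = κ ^ (k + 1) * L 0 := by ring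
  have hconc : ∀ k j, ∀ y : ℕ → (st (k + j)).β, ∃ y' : ℕ → (st k).β,
      unf (st (k + j)).M (st (k + j)).w y = unf (st k).M (st k).w y' := by
    intro k j
    induction j with
    | zero => exact fun y => ⟨y, rfl⟩
    | succ j ih =>
      have h1 : ∀ y : ℕ → (st (k + j + 1)).β, ∃ y' : ℕ → (st (k + j)).β,
          unf (st (k + j + 1)).M (st (k + j + 1)).w y = unf (st (k + j)).M (st (k + j)).w y' := by
        rw [hst (k + j)]
        exact hf2 (st (k + j))
      intro y
      obtain ⟨y1, hy1⟩ := h1 y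
      obtain ⟨y2, hy2⟩ := ih y1
      exact ⟨y2, hy1.trans hy2⟩
  have hx : ∀ k, ∃ x : ℕ → ι, (∀ n, 1 ≤ n → ρ ^ n ≤ nrm (prodSeq A x n)) ∧
      Sub x (unf (st k).M (st k).w (st k).z) := by
    intro k
    refine lemmaG A hρ _ ?_
    intro r hr hr'
    rw [frequently_atTop]
    intro n
    have hM := (st k).hM
    refine ⟨(st k).M * (n + 1), ?_, ?_⟩
    · calc n ≤ n + 1 := Nat.le_succ n
        _ ≤ (st k).M * (n + 1) := Nat.le_mul_of_pos_left _ hM
    · rw [prodSeq_unf A hM]
      refine le_trans ?_ ((st k).hz (n + 1) (by omega))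
      rw [pow_mul]
      exact pow_le_pow_left₀ (by positivity) (pow_le_pow_left₀ hr.le hr'.le _) _
  choose X hX1 hX2 using hx
  obtain ⟨x, hxl⟩ := exists_limit X
  refine ⟨x, ?_, ?_⟩
  · intro n hn
    obtain ⟨j, hj⟩ := (hxl n).exists
    rw [← prodSeq_congr A hj]
    exact hX1 j n hn
  · have hle : ∀ k, entropy x ≤ L k := by
      intro k
      have := (st k).fin
      refine entropy_le_of_blocks ((st k).z 0) (st k).hM (st k).w x ?_
      intro p n
      obtain ⟨j, hj, hjk⟩ := ((hxl (p + n)).and_eventually (eventually_ge_atTop k)).exists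
      obtain ⟨q, hq⟩ := hX2 j p n
      obtain ⟨i, rfl⟩ := Nat.exists_eq_add_of_le hjk
      obtain ⟨y', hy'⟩ := hconc k i (st (k + i)).z
      refine ⟨y', q, fun t ht => ?_⟩
      rw [← hj (p + t) (by omega), hq t ht, hy']
      rfl
    have hlim : Tendsto (fun k : ℕ => κ ^ k * L 0) atTop (𝓝 (0 * L 0)) :=
      (tendsto_pow_atTop_nhds_zero_of_lt_one hκ0 hκ1).mul_const _
    rw [zero_mul] at hlim
    exact le_antisymm (ge_of_tendsto' hlim fun k => (hle k).trans (hL k)) (entropy_nonneg x)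

/-- Very weakly extremal sequences under a surjective change of the index set. -/
lemma transfer {β κ : Type} (g : κ → β) (hg : Function.Surjective g)
    (B : β → Matrix (Fin d) (Fin d) ℝ) (x : ℕ → κ)
    (hx : VeryWeaklyExtremal (fun i => B (g i)) x) : VeryWeaklyExtremal B (fun n => g (x n)) := by
  have h1 : ∀ (y : ℕ → κ) n, prodSeq B (fun n => g (y n)) n =
      prodSeq (fun i => B (g i)) y n := by
    intro y n
    induction n with
    | zero => rfl
    | succ n ih => simp only [prodSeq]; rw [ih]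
  have h2 : ∀ n, (⨆ y : ℕ → β, nrm (prodSeq B y n)) =
      ⨆ y : ℕ → κ, nrm (prodSeq (fun i => B (g i)) y n) := by
    intro n
    have hs : Function.Surjective (fun (y : ℕ → κ) (n : ℕ) => g (y n)) := by
      intro y
      choose f hf using fun n => hg (y n)
      exact ⟨f, funext hf⟩
    rw [← hs.iSup_comp]
    simp only [h1]
  unfold VeryWeaklyExtremal jsr
  simp only [h1, h2]
  exact hx

lemma entropy_map_le {β κ : Type} [Finite β] [Finite κ] (g : κ → β) (x : ℕ → κ) :
    entropy (fun n => g (x n)) ≤ entropy x := by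
  classical
  have hc : ∀ n, complexity (fun i => g (x i)) n ≤ complexity x n := by
    intro n
    have h1 : (Set.range fun k : ℕ => fun i : Fin n => g (x (k + i))) =
        (fun v : Fin n → κ => fun i => g (v i)) ''
          (Set.range fun k : ℕ => fun i : Fin n => x (k + i)) := by
      rw [← Set.range_comp]
      rfl
    unfold complexity
    rw [h1]
    exact Set.ncard_image_le (Set.toFinite _)
  refine limsup_le_limsup (Eventually.of_forall fun n => ?_) (cobounded_ent _) (bounded_ent x)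
  refine div_le_div_of_nonneg_right ?_ (by positivity)
  refine Real.log_le_log ?_ (by exact_mod_cast hc n)
  exact_mod_cast complexity_pos (fun n => g (x n)) n

end Stages

section Automaton

variable {d D : ℕ} {S ι : Type}

/-- The states visited by an automaton with transition function `nx` on the input `x`. -/
def run (nx : S → ι → S) (s : S) (x : ℕ → ι) : ℕ → S
  | 0 => s
  | n + 1 => nx (run nx s x n) (x n)

/-- The sequence of the pairs (state, letter). -/
def path (nx : S → ι → S) (s : S) (x : ℕ → ι) : ℕ → S × ι := fun n => (run nx s x n, x n)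

lemma run_add (nx : S → ι → S) (s : S) (x : ℕ → ι) (t n : ℕ) :
    run nx s x (t + n) = run nx (run nx s x t) (fun i => x (t + i)) n := by
  induction n with
  | zero => rfl
  | succ n ih => rw [← add_assoc]; simp only [run]; rw [ih]

lemma path_add (nx : S → ι → S) (s : S) (x : ℕ → ι) (t : ℕ) :
    (fun i => path nx s x (t + i)) = path nx (run nx s x t) (fun i => x (t + i)) := by
  funext n
  simp only [path, run_add]

lemma prodSeq_path_add (nx : S → ι → S) (M : S × ι → Matrix (Fin d) (Fin d) ℝ) (s : S)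
    (x : ℕ → ι) (t n : ℕ) : prodSeq M (path nx s x) (t + n) =
      prodSeq M (path nx (run nx s x t) (fun i => x (t + i))) n * prodSeq M (path nx s x) t := by
  rw [prodSeq_add, path_add]

variable [Fintype S] [DecidableEq S]

/-- The family of matrices driven by an automaton. -/
def autoFam (e : S × Fin d ≃ Fin D) (nx : S → ι → S) (M : S × ι → Matrix (Fin d) (Fin d) ℝ) :
    ι → Matrix (Fin D) (Fin D) ℝ := fun a => Matrix.of fun p q =>
  if (e.symm p).1 = nx (e.symm q).1 a then M ((e.symm q).1, a) (e.symm p).2 (e.symm q).2 else 0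

lemma autoFam_entry (e : S × Fin d ≃ Fin D) (nx : S → ι → S)
    (M : S × ι → Matrix (Fin d) (Fin d) ℝ) (x : ℕ → ι) (n : ℕ) : ∀ p q,
    prodSeq (autoFam e nx M) x n p q = if (e.symm p).1 = run nx (e.symm q).1 x n then
      prodSeq M (path nx (e.symm q).1 x) n (e.symm p).2 (e.symm q).2 else 0 := by
  induction n with
  | zero =>
    intro p q
    have h : p = q ↔ ((e.symm p).1 = (e.symm q).1 ∧ (e.symm p).2 = (e.symm q).2) := by
      rw [← Prod.ext_iff, e.symm.injective.eq_iff]
    show (1 : Matrix (Fin D) (Fin D) ℝ) p q = if (e.symm p).1 = (e.symm q).1 then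
      (1 : Matrix (Fin d) (Fin d) ℝ) (e.symm p).2 (e.symm q).2 else 0
    rw [Matrix.one_apply, Matrix.one_apply]
    by_cases h1 : (e.symm p).1 = (e.symm q).1
    · by_cases h2 : (e.symm p).2 = (e.symm q).2
      · rw [if_pos (h.mpr ⟨h1, h2⟩), if_pos h1, if_pos h2]
      · rw [if_neg (fun hh => h2 (h.mp hh).2), if_pos h1, if_neg h2]
    · rw [if_neg (fun hh => h1 (h.mp hh).1), if_neg h1]
  | succ n ih =>
    intro p q
    simp only [prodSeq]
    rw [Matrix.mul_apply]
    simp only [ih]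
    rw [← e.sum_comp, Fintype.sum_prod_type]
    simp only [Equiv.symm_apply_apply, autoFam, Matrix.of_apply]
    rw [Finset.sum_eq_single (run nx (e.symm q).1 x n)]
    · by_cases h : (e.symm p).1 = nx (run nx (e.symm q).1 x n) (x n)
      · have h' : (e.symm p).1 = run nx (e.symm q).1 x (n + 1) := h
        rw [if_pos h', Matrix.mul_apply]
        refine Finset.sum_congr rfl fun j _ => ?_
        rw [if_pos h, if_pos rfl]
        rfl
      · have h' : ¬ (e.symm p).1 = run nx (e.symm q).1 x (n + 1) := h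
        rw [if_neg h']
        refine Finset.sum_eq_zero fun j _ => ?_
        rw [if_neg h, zero_mul]
    · intro s _ hs
      simp [hs]
    · simp

lemma nrm_autoFam (e : S × Fin d ≃ Fin D) (nx : S → ι → S)
    (M : S × ι → Matrix (Fin d) (Fin d) ℝ) (x : ℕ → ι) (n : ℕ) :
    nrm (prodSeq (autoFam e nx M) x n) = ∑ s, nrm (prodSeq M (path nx s x) n) := by
  unfold nrm
  simp only [autoFam_entry]
  rw [Finset.sum_comm, ← e.sum_comp, Fintype.sum_prod_type]
  refine Finset.sum_congr rfl fun s _ => ?_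
  simp only [Equiv.symm_apply_apply]
  rw [Finset.sum_comm (s := Finset.univ) (t := Finset.univ)
    (f := fun i j => |prodSeq M (path nx s x) n i j|)]
  refine Finset.sum_congr rfl fun j _ => ?_
  rw [← e.sum_comp, Fintype.sum_prod_type]
  simp only [Equiv.symm_apply_apply]
  rw [Finset.sum_eq_single (run nx s x n)]
  · simp
  · intro s' _ hs'
    simp [hs']
  · simp

end Automaton

section Buffer

variable {d k : ℕ} {ι : Type}

/-- Transitions: the phase goes up by one, the letter is stored at the old phase. -/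
def nxt (s : ZMod k × (ZMod k → ι)) (a : ι) : ZMod k × (ZMod k → ι) :=
  (s.1 + 1, Function.update s.2 s.1 a)

/-- At the last phase the matrix of the stored word is applied, otherwise the identity. -/
def Mat (C : (ZMod k → ι) → Matrix (Fin d) (Fin d) ℝ) :
    (ZMod k × (ZMod k → ι)) × ι → Matrix (Fin d) (Fin d) ℝ := fun sa =>
  if sa.1.1 + 1 = 0 then C (Function.update sa.1.2 sa.1.1 sa.2) else 1

lemma phase (s : ZMod k × (ZMod k → ι)) (x : ℕ → ι) (n : ℕ) :
    (run nxt s x n).1 = s.1 + n := by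
  induction n with
  | zero => simp [run]
  | succ n ih =>
    simp only [run, nxt]
    rw [ih]
    push_cast
    ring

lemma prod_lt (C : (ZMod k → ι) → Matrix (Fin d) (Fin d) ℝ) (v : ZMod k → ι) (x : ℕ → ι) :
    ∀ n, n < k → prodSeq (Mat C) (path nxt (0, v) x) n = 1 := by
  intro n
  induction n with
  | zero => intro _; rfl
  | succ n ih =>
    intro hn
    simp only [prodSeq]
    rw [ih (by omega), mul_one]
    have h0 : ¬ (path nxt (0, v) x n).1.1 + 1 = 0 := by
      show ¬ (run nxt (0, v) x n).1 + 1 = 0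
      rw [phase]
      intro h
      have h1 : ((n + 1 : ℕ) : ZMod k) = 0 := by
        push_cast
        simpa using h
      rw [ZMod.natCast_eq_zero_iff] at h1
      exact absurd (Nat.le_of_dvd (by omega) h1) (by omega)
    unfold Mat
    exact if_neg h0

variable [NeZero k]

lemma run_zero (v : ZMod k → ι) (x : ℕ → ι) : ∀ n, n ≤ k →
    run nxt (0, v) x n = ((n : ZMod k), fun c => if c.val < n then x c.val else v c) := by
  intro n
  induction n with
  | zero => intro _; simp [run]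
  | succ n ih =>
    intro hn
    simp only [run]
    rw [ih (by omega)]
    simp only [nxt]
    refine Prod.ext (by push_cast; rfl) ?_
    funext c
    have hval : ((n : ZMod k)).val = n := ZMod.val_cast_of_lt (by omega)
    by_cases hc : c = (n : ZMod k)
    · subst hc
      simp [hval]
    · have hc' : c.val ≠ n := by
        intro h
        apply hc
        rw [← h, ZMod.natCast_zmod_val]
      simp only [Function.update_of_ne hc]
      by_cases h1 : c.val < n
      · rw [if_pos h1, if_pos (by omega)]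
      · rw [if_neg h1, if_neg (by omega)]

lemma prod_k (C : (ZMod k → ι) → Matrix (Fin d) (Fin d) ℝ) (v : ZMod k → ι) (x : ℕ → ι) :
    prodSeq (Mat C) (path nxt (0, v) x) k = C fun c => x c.val := by
  obtain ⟨j, hj⟩ : ∃ j, k = j + 1 := ⟨k - 1, by have := NeZero.ne k; omega⟩
  have h1 := run_zero v x k le_rfl
  have h2 := prod_lt C v x j (by omega)
  have h3 : run nxt (0, v) x k = nxt (run nxt (0, v) x j) (x j) :=
    congrArg (run nxt (0, v) x) hj
  have h4 : prodSeq (Mat C) (path nxt (0, v) x) k =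
      Mat C (path nxt (0, v) x j) * prodSeq (Mat C) (path nxt (0, v) x) j :=
    congrArg (prodSeq (Mat C) (path nxt (0, v) x)) hj
  rw [h4, h2, mul_one]
  have h5 : nxt (run nxt (0, v) x j) (x j) = ((0 : ZMod k), fun c => x c.val) := by
    rw [← h3, h1]
    refine Prod.ext (by simp) ?_
    funext c
    simp [ZMod.val_lt c]
  have h6 := congrArg Prod.fst h5
  have h7 := congrArg Prod.snd h5
  have h8 : (path nxt (0, v) x j).1.1 + 1 = 0 := h6
  have h9 : Function.update (path nxt (0, v) x j).1.2 (path nxt (0, v) x j).1.1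
      (path nxt (0, v) x j).2 = fun c => x c.val := h7
  unfold Mat
  rw [if_pos h8, h9]

lemma prod_mul (C : (ZMod k → ι) → Matrix (Fin d) (Fin d) ℝ) (v : ZMod k → ι) (x : ℕ → ι)
    (n : ℕ) : prodSeq (Mat C) (path nxt (0, v) x) (k * n) =
      prodSeq C (fun i c => x (k * i + c.val)) n := by
  induction n with
  | zero => rfl
  | succ n ih =>
    rw [Nat.mul_succ, prodSeq_path_add, ih]
    simp only [prodSeq]
    congr 1
    have h1 : (run nxt (0, v) x (k * n)).1 = 0 := by
      rw [phase]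
      simp
    obtain ⟨v', hv'⟩ : ∃ v', run nxt (0, v) x (k * n) = (0, v') := ⟨_, Prod.ext h1 rfl⟩
    rw [hv', prod_k]

end Buffer

section Pairs

lemma le_limsup_seq {d : ℕ} {ι : Type} [Finite ι] (A : ι → Matrix (Fin d) (Fin d) ℝ) (a : ℕ → ι)
    {R c : ℝ} (hc : 0 < c) (hR : 0 < R)
    (h : ∃ᶠ q in atTop, c * R ^ q ≤ nrm (prodSeq A a q)) :
    R ≤ limsup (fun n : ℕ => nrm (prodSeq A a n) ^ (1 / (n : ℝ))) atTop := by
  by_contra hcon
  push Not at hcon
  obtain ⟨r, hr1, hr2⟩ := exists_between hcon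
  have hlim : Tendsto (fun n : ℕ => c ^ (1 / (n : ℝ)) * R) atTop (𝓝 (1 * R)) := by
    refine Tendsto.mul_const _ ?_
    have h2 : Tendsto (fun n : ℕ => (1 : ℝ) / (n : ℝ)) atTop (𝓝 0) :=
      tendsto_one_div_atTop_nhds_zero_nat
    have h3 := (Real.continuousAt_const_rpow (a := c) (b := 0) hc.ne').tendsto.comp h2
    simpa [Function.comp_def] using h3
  have hev : ∀ᶠ n : ℕ in atTop, r < c ^ (1 / (n : ℝ)) * R :=
    hlim.eventually (lt_mem_nhds (by rw [one_mul]; exact hr2))
  have hle : r ≤ limsup (fun n : ℕ => nrm (prodSeq A a n) ^ (1 / (n : ℝ))) atTop := by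
    refine le_limsup_of_frequently_le
      ((h.and_eventually (hev.and (eventually_ge_atTop 1))).mono ?_) (bounded_seq A a)
    rintro n ⟨h1, h2, h3⟩
    have hn0 : n ≠ 0 := by omega
    calc r ≤ c ^ (1 / (n : ℝ)) * R := h2.le
      _ = c ^ (1 / (n : ℝ)) * (R ^ n) ^ (1 / (n : ℝ)) := by
          rw [one_div, Real.pow_rpow_inv_natCast hR.le hn0]
      _ = (c * R ^ n) ^ (1 / (n : ℝ)) := (Real.mul_rpow hc.le (pow_nonneg hR.le _)).symm
      _ ≤ nrm (prodSeq A a n) ^ (1 / (n : ℝ)) :=
          Real.rpow_le_rpow (by positivity) h1 (by positivity)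
  linarith

variable {d k : ℕ} [NeZero k]

lemma entropy_blocks {ι : Type} [Finite ι] (z : ℕ → ι) (t : ℕ) :
    entropy (fun (i : ℕ) (c : ZMod k) => z (t + (k * i + c.val))) ≤ k * entropy z := by
  classical
  have hk : 0 < k := NeZero.pos k
  have hkr : (0 : ℝ) < k := by exact_mod_cast hk
  have hcount : ∀ n, complexity (fun (i : ℕ) (c : ZMod k) => z (t + (k * i + c.val))) n ≤
      complexity z (k * n) := by
    intro n
    have hlt : ∀ (i : Fin n) (c : ZMod k), k * (i : ℕ) + c.val < k * n := by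
      intro i c
      calc k * (i : ℕ) + c.val < k * (i : ℕ) + k := by
            have := ZMod.val_lt c
            omega
        _ = k * ((i : ℕ) + 1) := by ring
        _ ≤ k * n := Nat.mul_le_mul_left k i.2
    let G : (Fin (k * n) → ι) → (Fin n → ZMod k → ι) := fun w i c =>
      w ⟨k * (i : ℕ) + c.val, hlt i c⟩
    have hsub : (Set.range fun q : ℕ => fun i : Fin n =>
        (fun c : ZMod k => z (t + (k * (q + (i : ℕ)) + c.val)))) ⊆
        G '' (Set.range fun q : ℕ => fun i : Fin (k * n) => z (q + i)) := by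
      rintro _ ⟨q, rfl⟩
      refine ⟨_, ⟨t + k * q, rfl⟩, ?_⟩
      funext i c
      simp only [G]
      congr 1
      ring
    exact (Set.ncard_le_ncard hsub (Set.toFinite _)).trans (Set.ncard_image_le (Set.toFinite _))
  refine le_of_forall_pos_le_add fun ε hε => ?_
  set h' : ℝ := entropy z + ε / k with hh'
  have hev : ∀ᶠ N : ℕ in atTop, Real.log (complexity z N) / N < h' :=
    eventually_lt_of_limsup_lt
      (show entropy z < h' by rw [hh']; have := div_pos hε hkr; linarith) (bounded_ent z)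
  have htd : Tendsto (fun n : ℕ => k * n) atTop atTop :=
    tendsto_atTop_mono (fun n => Nat.le_mul_of_pos_left n hk) tendsto_id
  have hle : entropy (fun (i : ℕ) (c : ZMod k) => z (t + (k * i + c.val))) ≤ k * h' := by
    refine limsup_le_of_le (cobounded_ent _) ?_
    filter_upwards [eventually_ge_atTop 1, htd.eventually hev] with n hn hN
    have hn0 : (0 : ℝ) < n := by exact_mod_cast hn
    have hkn : (0 : ℝ) < ((k * n : ℕ) : ℝ) := by
      push_cast
      positivity
    rw [div_lt_iff₀ hkn] at hN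
    rw [div_le_iff₀ hn0]
    have h1 : (1 : ℝ) ≤
        complexity (fun (i : ℕ) (c : ZMod k) => z (t + (k * i + c.val))) n := by
      exact_mod_cast complexity_pos _ n
    calc Real.log (complexity (fun (i : ℕ) (c : ZMod k) => z (t + (k * i + c.val))) n)
        ≤ Real.log (complexity z (k * n)) :=
          Real.log_le_log (by linarith) (by exact_mod_cast hcount n)
      _ ≤ h' * ((k * n : ℕ) : ℝ) := hN.le
      _ = k * h' * n := by
          push_cast
          ring
  calc entropy (fun (i : ℕ) (c : ZMod k) => z (t + (k * i + c.val))) ≤ k * h' := hle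
    _ = k * entropy z + ε := by
        rw [hh']
        field_simp

lemma path_bound {ι : Type} [Finite ι] (C : (ZMod k → ι) → Matrix (Fin d) (Fin d) ℝ) :
    ∃ E : ℝ, 0 < E ∧ ∀ (s : ZMod k × (ZMod k → ι)) (z : ℕ → ι) (n : ℕ),
      nrm (prodSeq (Mat C) (path nxt s z) ((-s.1).val + n)) ≤
        E * nrm (prodSeq C (fun i c => z ((-s.1).val + (k * i + c.val))) (n / k)) := by
  obtain ⟨K₀, hK₀, hK₀'⟩ := exists_bound (Mat C)
  set K : ℝ := max K₀ 1 with hKdef
  have hK0 : 0 ≤ K := hK₀.trans (le_max_left _ _)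
  have hK1 : 1 ≤ K := le_max_right _ _
  have hK : ∀ a, nrm (Mat C a) ≤ K := fun a => (hK₀' a).trans (le_max_left _ _)
  set E₀ : ℝ := nrm (1 : Matrix (Fin d) (Fin d) ℝ) * K ^ k with hE₀
  have hE00 : 0 ≤ E₀ := mul_nonneg (nrm_nonneg _) (pow_nonneg hK0 _)
  have hsmall : ∀ (u : ℕ → (ZMod k × (ZMod k → ι)) × ι) (j : ℕ), j ≤ k →
      nrm (prodSeq (Mat C) u j) ≤ E₀ := by
    intro u j hj
    refine (prodSeq_le (Mat C) hK0 hK u j).trans ?_
    exact mul_le_mul_of_nonneg_left (pow_le_pow_right₀ hK1 hj) (nrm_nonneg _)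
  refine ⟨E₀ * E₀ + 1, by positivity, ?_⟩
  intro s z n
  have hk : 0 < k := NeZero.pos k
  obtain ⟨t, ht⟩ : ∃ t : ℕ, t = (-s.1).val := ⟨_, rfl⟩
  rw [← ht]
  have htk : t < k := by rw [ht]; exact ZMod.val_lt _
  have h1 : (run nxt s z t).1 = 0 := by
    rw [phase, ht, ZMod.natCast_zmod_val]
    ring
  obtain ⟨v', hv'⟩ : ∃ v', run nxt s z t = (0, v') := ⟨_, Prod.ext h1 rfl⟩
  rw [prodSeq_path_add, hv']
  have hn : n = k * (n / k) + n % k := (Nat.div_add_mod n k).symm
  have h2 : prodSeq (Mat C) (path nxt (0, v') (fun i => z (t + i))) n =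
      prodSeq (Mat C) (path nxt (run nxt (0, v') (fun i => z (t + i)) (k * (n / k)))
        (fun i => z (t + (k * (n / k) + i)))) (n % k) *
      prodSeq C (fun i c => z (t + (k * i + c.val))) (n / k) := by
    have h3 := prodSeq_path_add nxt (Mat C) (0, v') (fun i => z (t + i)) (k * (n / k)) (n % k)
    rw [prod_mul, Nat.div_add_mod] at h3
    exact h3
  rw [h2]
  have h4 := hsmall (path nxt s z) t htk.le
  have h5 := hsmall (path nxt (run nxt (0, v') (fun i => z (t + i)) (k * (n / k)))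
        (fun i => z (t + (k * (n / k) + i)))) (n % k) (Nat.mod_lt _ hk).le
  set X := nrm (prodSeq C (fun i c => z (t + (k * i + c.val))) (n / k)) with hX
  have hX0 : 0 ≤ X := nrm_nonneg _
  refine (nrm_mul_le _ _).trans ?_
  refine (mul_le_mul (nrm_mul_le _ _) h4 (nrm_nonneg _)
    (mul_nonneg (nrm_nonneg _) (nrm_nonneg _))).trans ?_
  rw [← hX]
  calc _ * X * E₀ ≤ E₀ * X * E₀ :=
        mul_le_mul_of_nonneg_right (mul_le_mul_of_nonneg_right h5 hX0) hE00
    _ = (E₀ * E₀) * X := by ring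
    _ ≤ (E₀ * E₀ + 1) * X := mul_le_mul_of_nonneg_right (by linarith) hX0

/-- From a family of `m ≤ b ^ k` matrices to a family of `b` matrices. -/
lemma pair_main (R : Subsemiring ℝ) {b : ℕ} {m : ℕ} (A : Fin m → Matrix (Fin d) (Fin d) ℝ)
    (hR : ∀ i p q, A i p q ∈ R) (hm1 : 1 ≤ m) (hm : m ≤ b ^ k) {L : ℝ} (hL : 0 < L) (h : ∀ a : ℕ → Fin m, VeryWeaklyExtremal A a → L ≤ entropy a) :
    ∃ (D : ℕ) (B : Fin b → Matrix (Fin D) (Fin D) ℝ), (∀ i p q, B i p q ∈ R) ∧
      ∀ x : ℕ → Fin b, VeryWeaklyExtremal B x → L ≤ k * entropy x := by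
  classical
  have hk : 0 < k := NeZero.pos k
  have hcard : Fintype.card (Fin m) ≤ Fintype.card (ZMod k → Fin b) := by
    simpa [ZMod.card] using hm
  obtain ⟨code⟩ := Function.Embedding.nonempty_of_card_le hcard
  let C : (ZMod k → Fin b) → Matrix (Fin d) (Fin d) ℝ := Function.extend code A (fun _ => 0)
  have hC : ∀ a, C (code a) = A a := fun a => code.injective.extend_apply A (fun _ => 0) a
  have hC0 : ∀ w, (¬ ∃ a, code a = w) → C w = 0 := fun w hw =>
    Function.extend_apply' A (fun _ => 0) w hw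
  have hprod : ∀ (a : ℕ → Fin m) n, prodSeq C (fun i => code (a i)) n = prodSeq A a n := by
    intro a n
    induction n with
    | zero => rfl
    | succ n ih => simp only [prodSeq]; rw [ih, hC]
  let e : ((ZMod k × (ZMod k → Fin b)) × Fin d) ≃
      Fin (Fintype.card ((ZMod k × (ZMod k → Fin b)) × Fin d)) := Fintype.equivFin _
  let B : Fin b → Matrix (Fin (Fintype.card ((ZMod k × (ZMod k → Fin b)) × Fin d)))
      (Fin (Fintype.card ((ZMod k × (ZMod k → Fin b)) × Fin d))) ℝ := autoFam e nxt (Mat C)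
  have hBn : ∀ (x : ℕ → Fin b) n, nrm (prodSeq B x n) =
      ∑ s, nrm (prodSeq (Mat C) (path nxt s x) n) := fun x n => nrm_autoFam e nxt (Mat C) x n
  have hne : Nonempty (Fin m) := ⟨⟨0, by omega⟩⟩
  have hneS : Nonempty (ZMod k × (ZMod k → Fin b)) := ⟨(0, code ⟨0, by omega⟩)⟩
  have hjA : 0 < jsr A := by
    rcases (jsr_nonneg A).eq_or_lt with h0 | h0
    · exfalso
      have h1 : VeryWeaklyExtremal A (fun _ => (⟨0, by omega⟩ : Fin m)) := by
        refine vwe_of_le A _ fun n hn => ?_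
        rw [← h0, zero_pow (by omega)]
        exact nrm_nonneg _
      have h2 := h _ h1
      rw [entropy_const] at h2
      linarith
    · exact h0
  have hjAB : jsr A ≤ jsr B ^ k := by
    obtain ⟨z₀, hz₀⟩ := exists_extremal A
    obtain ⟨r, hr0, hrk⟩ : ∃ r : ℝ, 0 ≤ r ∧ r ^ k = jsr A :=
      ⟨jsr A ^ ((k : ℝ)⁻¹), Real.rpow_nonneg hjA.le _,
        Real.rpow_inv_natCast_pow hjA.le hk.ne'⟩
    have hrB : r ≤ jsr B := by
      have h1 : ∃ᶠ N in atTop, r ^ N ≤ ⨆ x : ℕ → Fin b, nrm (prodSeq B x N) := by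
        rw [frequently_atTop]
        intro n
        refine ⟨k * (n + 1), ?_, ?_⟩
        · calc n ≤ n + 1 := Nat.le_succ n
            _ ≤ k * (n + 1) := Nat.le_mul_of_pos_left _ hk
        · let x₀ : ℕ → Fin b := fun n => code (z₀ (n / k)) (n : ZMod k)
          have h2 : (fun (i : ℕ) (c : ZMod k) => x₀ (k * i + c.val)) = fun i => code (z₀ i) := by
            funext i c
            simp only [x₀]
            rw [Nat.mul_add_div hk, Nat.div_eq_of_lt (ZMod.val_lt c), add_zero]
            push_cast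
            rw [ZMod.natCast_zmod_val]
            simp
          have h3 := prod_mul C (code (z₀ 0)) x₀ (n + 1)
          rw [h2, hprod] at h3
          calc r ^ (k * (n + 1)) = jsr A ^ (n + 1) := by rw [pow_mul, hrk]
            _ ≤ nrm (prodSeq A z₀ (n + 1)) := hz₀ (n + 1) (by omega)
            _ = nrm (prodSeq (Mat C) (path nxt (0, code (z₀ 0)) x₀) (k * (n + 1))) := by rw [h3]
            _ ≤ ∑ s, nrm (prodSeq (Mat C) (path nxt s x₀) (k * (n + 1))) :=
                Finset.single_le_sum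
                  (f := fun s => nrm (prodSeq (Mat C) (path nxt s x₀) (k * (n + 1))))
                  (fun _ _ => nrm_nonneg _) (Finset.mem_univ _)
            _ = nrm (prodSeq B x₀ (k * (n + 1))) := (hBn x₀ _).symm
            _ ≤ _ := le_sup B x₀ _
      refine le_limsup_of_frequently_le
        ((h1.and_eventually (eventually_ge_atTop 1)).mono ?_) (bounded_sup B)
      rintro N ⟨h2, h3⟩
      have hN0 : N ≠ 0 := by omega
      calc r = (r ^ N) ^ (1 / (N : ℝ)) := by rw [one_div, Real.pow_rpow_inv_natCast hr0 hN0]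
        _ ≤ _ := Real.rpow_le_rpow (pow_nonneg hr0 _) h2 (by positivity)
    rw [← hrk]
    exact pow_le_pow_left₀ hr0 hrB _
  have hρ : 0 < jsr B := by
    rcases (jsr_nonneg B).eq_or_lt with h0 | h0
    · rw [← h0, zero_pow hk.ne'] at hjAB
      linarith
    · exact h0
  have hCR : ∀ w p q, C w p q ∈ R := by
    intro w p q
    by_cases hw : ∃ a, code a = w
    · obtain ⟨a, rfl⟩ := hw
      rw [hC]
      exact hR a p q
    · rw [hC0 w hw]
      exact R.zero_mem
  have hBR : ∀ i p q, B i p q ∈ R := by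
    intro i p q
    simp only [B, autoFam, Matrix.of_apply]
    by_cases h1 : (e.symm p).1 = nxt (e.symm q).1 i
    · rw [if_pos h1]
      unfold Mat
      by_cases h2 : ((e.symm q).1, i).1.1 + 1 = 0
      · rw [if_pos h2]
        exact hCR _ _ _
      · rw [if_neg h2, Matrix.one_apply]
        by_cases h3 : (e.symm p).2 = (e.symm q).2
        · rw [if_pos h3]
          exact R.one_mem
        · rw [if_neg h3]
          exact R.zero_mem
    · rw [if_neg h1]
      exact R.zero_mem
  refine ⟨_, B, hBR, fun x hx => ?_⟩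
  obtain ⟨z, hz, hsub⟩ := lemmaG B hρ x (fun r hr hr' => frequently_of_vwe B hx hr.le hr')
  obtain ⟨c₀, hc₀⟩ : ∃ c₀ : ℝ, c₀ = Fintype.card (ZMod k × (ZMod k → Fin b)) := ⟨_, rfl⟩
  have hc₀pos : 0 < c₀ := by
    rw [hc₀]
    exact_mod_cast Fintype.card_pos
  have hs : ∃ s : ZMod k × (ZMod k → Fin b), ∃ᶠ n in atTop,
      jsr B ^ n ≤ c₀ * nrm (prodSeq (Mat C) (path nxt s z) n) := by
    by_contra hcon
    push Not at hcon
    have h1 : ∀ s : ZMod k × (ZMod k → Fin b), ∀ᶠ n in atTop,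
        c₀ * nrm (prodSeq (Mat C) (path nxt s z) n) < jsr B ^ n := by
      intro s
      simpa [not_frequently] using hcon s
    obtain ⟨n, hn, hn1⟩ := ((eventually_all.mpr h1).and (eventually_ge_atTop 1)).exists
    have h2 := hz n hn1
    rw [hBn] at h2
    have h3 : ∑ s : ZMod k × (ZMod k → Fin b), c₀ * nrm (prodSeq (Mat C) (path nxt s z) n) <
        ∑ _s : ZMod k × (ZMod k → Fin b), jsr B ^ n :=
      Finset.sum_lt_sum_of_nonempty Finset.univ_nonempty fun s _ => hn s
    rw [← Finset.mul_sum, Finset.sum_const, Finset.card_univ, nsmul_eq_mul, ← hc₀] at h3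
    have h4 := lt_of_mul_lt_mul_left h3 hc₀pos.le
    linarith
  obtain ⟨s, hs⟩ := hs
  obtain ⟨E, hE, hbound⟩ := path_bound C
  obtain ⟨t, ht⟩ : ∃ t : ℕ, t = (-s.1).val := ⟨_, rfl⟩
  have htk : t < k := by rw [ht]; exact ZMod.val_lt _
  obtain ⟨y, hy⟩ : ∃ y : ℕ → ZMod k → Fin b, y = fun i c => z (t + (k * i + c.val)) := ⟨_, rfl⟩
  set δ : ℝ := min 1 (jsr B) ^ (2 * k) with hδ
  have hmin : 0 < min 1 (jsr B) := lt_min one_pos hρ
  have hδpos : 0 < δ := by positivity
  obtain ⟨c, hcdef⟩ : ∃ c : ℝ, c = δ / (c₀ * E) := ⟨_, rfl⟩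
  have hc : 0 < c := by rw [hcdef]; positivity
  have hfr : ∃ᶠ q in atTop, c * (jsr B ^ k) ^ q ≤ nrm (prodSeq C y q) := by
    have htd : Tendsto (fun n : ℕ => (n - t) / k) atTop atTop :=
      (Nat.tendsto_div_const_atTop hk.ne').comp (tendsto_sub_atTop_nat t)
    refine htd.frequently ((hs.and_eventually (eventually_ge_atTop t)).mono ?_)
    rintro n ⟨h1, h2⟩
    obtain ⟨n', rfl⟩ := Nat.exists_eq_add_of_le h2
    rw [Nat.add_sub_cancel_left]
    have h3 := hbound s z n'
    rw [← ht, ← hy] at h3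
    have h4 : jsr B ^ (t + n') ≤ c₀ * (E * nrm (prodSeq C y (n' / k))) :=
      h1.trans (mul_le_mul_of_nonneg_left h3 hc₀pos.le)
    have h5 : jsr B ^ (t + n') = jsr B ^ (t + n' % k) * (jsr B ^ k) ^ (n' / k) := by
      rw [← pow_mul, ← pow_add]
      congr 1
      have := Nat.div_add_mod n' k
      omega
    have h6 : δ ≤ jsr B ^ (t + n' % k) := by
      have h7 : t + n' % k ≤ 2 * k := by
        have := Nat.mod_lt n' hk
        omega
      calc δ ≤ min 1 (jsr B) ^ (t + n' % k) :=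
            pow_le_pow_of_le_one hmin.le (min_le_left _ _) h7
        _ ≤ jsr B ^ (t + n' % k) := pow_le_pow_left₀ hmin.le (min_le_right _ _) _
    rw [hcdef, div_mul_eq_mul_div, div_le_iff₀ (by positivity)]
    calc δ * (jsr B ^ k) ^ (n' / k) ≤ jsr B ^ (t + n' % k) * (jsr B ^ k) ^ (n' / k) :=
          mul_le_mul_of_nonneg_right h6 (by positivity)
      _ ≤ c₀ * (E * nrm (prodSeq C y (n' / k))) := by rw [← h5]; exact h4
      _ = nrm (prodSeq C y (n' / k)) * (c₀ * E) := by ring
  have hr : ∀ n, ∃ a, code a = y n := by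
    by_contra hcon
    rw [not_forall] at hcon
    obtain ⟨n₀, hn₀⟩ := hcon
    have hz0 : ∀ q, n₀ < q → prodSeq C y q = 0 := by
      intro q
      induction q with
      | zero => intro hq; omega
      | succ q ih =>
        intro hq
        simp only [prodSeq]
        rcases Nat.lt_or_ge n₀ q with h1 | h1
        · rw [ih h1, mul_zero]
        · have h2 : q = n₀ := by omega
          rw [h2, hC0 _ hn₀, zero_mul]
    obtain ⟨q, hq1, hq2⟩ := (hfr.and_eventually (eventually_gt_atTop n₀)).exists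
    rw [hz0 q hq2] at hq1
    have h3 : nrm (0 : Matrix (Fin d) (Fin d) ℝ) = 0 := by simp [nrm]
    rw [h3] at hq1
    have h4 : 0 < c * (jsr B ^ k) ^ q := by positivity
    linarith
  choose a ha using hr
  have hya : y = fun i => code (a i) := funext fun i => (ha i).symm
  have hent : entropy y = entropy a := by
    rw [hya]
    exact entropy_comp code code.injective a
  have hvwe : VeryWeaklyExtremal A a := by
    refine le_antisymm (limsup_le_jsr A a) (hjAB.trans ?_)
    refine le_limsup_seq A a hc (by positivity) ?_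
    rw [hya] at hfr
    simpa only [hprod] using hfr
  calc L ≤ entropy a := h a hvwe
    _ = entropy y := hent.symm
    _ ≤ k * entropy z := by rw [hy]; exact entropy_blocks z t
    _ ≤ k * entropy x := mul_le_mul_of_nonneg_left (entropy_mono hsub) (by positivity)

end Pairs

/-- The law inside a fixed semigroup of `d × d` matrices. -/
lemma law (d : ℕ) (Γ : Subsemigroup (Matrix (Fin d) (Fin d) ℝ)) :
    Xor
      (∀ (m : ℕ) (A : Fin m → Matrix (Fin d) (Fin d) ℝ), 1 ≤ m → (∀ i, A i ∈ Γ) →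
        ∃ x : ℕ → Fin m, (∀ n : ℕ, 1 ≤ n → jsr A ^ n ≤ nrm (prodSeq A x n)) ∧ entropy x = 0)
      (∀ (κ : ℝ) (m₀ : ℕ), κ < 1 → ∃ (m : ℕ) (A : Fin m → Matrix (Fin d) (Fin d) ℝ),
        2 ≤ m ∧ m₀ ≤ m ∧ (∀ i, A i ∈ Γ) ∧
          ∀ x : ℕ → Fin m, VeryWeaklyExtremal A x → κ * Real.log m ≤ entropy x) := by
  set P : Prop := ∀ (m : ℕ) (A : Fin m → Matrix (Fin d) (Fin d) ℝ), 1 ≤ m → (∀ i, A i ∈ Γ) →
        ∃ x : ℕ → Fin m, (∀ n : ℕ, 1 ≤ n → jsr A ^ n ≤ nrm (prodSeq A x n)) ∧ entropy x = 0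
    with hP
  set Q : Prop := ∀ (κ : ℝ) (m₀ : ℕ), κ < 1 → ∃ (m : ℕ) (A : Fin m → Matrix (Fin d) (Fin d) ℝ),
        2 ≤ m ∧ m₀ ≤ m ∧ (∀ i, A i ∈ Γ) ∧
          ∀ x : ℕ → Fin m, VeryWeaklyExtremal A x → κ * Real.log m ≤ entropy x with hQ
  have hnot : ¬ (P ∧ Q) := by
    rintro ⟨h1, h2⟩
    obtain ⟨m, A, hm, -, hA, hx⟩ := h2 (1 / 2) 0 (by norm_num)
    obtain ⟨x, hx1, hx2⟩ := h1 m A (by omega) hA
    have h3 := hx x (vwe_of_le A x hx1)
    rw [hx2] at h3
    have h4 : 0 < Real.log m := Real.log_pos (by exact_mod_cast hm)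
    linarith
  by_cases h : P
  · exact Or.inl ⟨h, fun h' => hnot ⟨h, h'⟩⟩
  · refine Or.inr ⟨?_, h⟩
    by_contra hcon
    rw [hQ] at hcon
    push Not at hcon
    obtain ⟨κ, m₀, hκ, hg⟩ := hcon
    refine h ?_
    intro m A hm hA
    have hne : Nonempty (Fin m) := ⟨⟨0, by omega⟩⟩
    have gap : Gap Γ (max κ 0) m₀ := by
      intro β _ hβ hβ' B hB
      let e : β ≃ Fin (Nat.card β) := Finite.equivFin β
      obtain ⟨x, hx, hent⟩ := hg (Nat.card β) (fun i => B (e.symm i)) hβ hβ' fun i => hB _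
      refine ⟨fun n => e.symm (x n), transfer e.symm e.symm.surjective B x hx, ?_⟩
      rw [entropy_comp e.symm e.symm.injective x]
      refine hent.trans_le (mul_le_mul_of_nonneg_right (le_max_left _ _) ?_)
      refine Real.log_nonneg ?_
      have : 1 ≤ Nat.card β := by omega
      exact_mod_cast this
    exact core A hA (le_max_right _ _) (max_lt hκ one_pos) gap

/-- Nearly maximal families of arbitrarily large cardinality give nearly maximal families of every
large cardinality. -/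
lemma spread {d : ℕ} {Γ : Subsemigroup (Matrix (Fin d) (Fin d) ℝ)}
    (h : ∀ (κ : ℝ) (m₀ : ℕ), κ < 1 → ∃ (m : ℕ) (A : Fin m → Matrix (Fin d) (Fin d) ℝ),
        2 ≤ m ∧ m₀ ≤ m ∧ (∀ i, A i ∈ Γ) ∧
          ∀ x : ℕ → Fin m, VeryWeaklyExtremal A x → κ * Real.log m ≤ entropy x)
    {κ : ℝ} (hκ : κ < 1) :
    ∃ m₁ : ℕ, ∀ m : ℕ, m₁ ≤ m → ∃ A : Fin m → Matrix (Fin d) (Fin d) ℝ, (∀ i, A i ∈ Γ) ∧
      ∀ x : ℕ → Fin m, VeryWeaklyExtremal A x → κ * Real.log m ≤ entropy x := by
  classical
  obtain ⟨κ₀, hκ₀⟩ : ∃ κ₀ : ℝ, κ₀ = max κ 0 := ⟨_, rfl⟩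
  have h0 : 0 ≤ κ₀ := by rw [hκ₀]; exact le_max_right _ _
  have h0' : κ ≤ κ₀ := by rw [hκ₀]; exact le_max_left _ _
  have h1 : κ₀ < 1 := by rw [hκ₀]; exact max_lt hκ one_pos
  obtain ⟨κ₁, hκ₁⟩ : ∃ κ₁ : ℝ, κ₁ = (κ₀ + 1) / 2 := ⟨_, rfl⟩
  have h2 : κ₁ < 1 := by rw [hκ₁]; linarith
  have h3 : 0 < κ₁ := by rw [hκ₁]; linarith
  obtain ⟨T₀, hT₀⟩ := exists_nat_ge (2 / (1 - κ₀))
  obtain ⟨n, A', hn2, -, hA', hx'⟩ := h κ₁ 0 h2
  refine ⟨n ^ (T₀ + 1), fun m hm => ?_⟩
  obtain ⟨T, hTdef⟩ : ∃ T : ℕ, T = Nat.log n m := ⟨_, rfl⟩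
  have hmpos : 0 < m := lt_of_lt_of_le (Nat.pow_pos (by omega)) hm
  have hT1 : n ^ T ≤ m := by rw [hTdef]; exact Nat.pow_log_le_self n hmpos.ne'
  have hT2 : m < n ^ (T + 1) := by rw [hTdef]; exact Nat.lt_pow_succ_log_self (by omega) m
  have hTT : T₀ + 1 ≤ T := by
    have h5 : n ^ (T₀ + 1) < n ^ (T + 1) := hm.trans_lt hT2
    have h6 := (Nat.pow_lt_pow_iff_right (show 1 < n by omega)).mp h5
    omega
  have hT : 1 ≤ T := by omega
  obtain ⟨a₀⟩ : Nonempty (Fin n) := ⟨⟨0, by omega⟩⟩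
  have hcard : Fintype.card (Fin T → Fin n) ≤ Fintype.card (Fin m) := by
    simpa using hT1
  obtain ⟨emb⟩ := Function.Embedding.nonempty_of_card_le hcard
  have hne : Nonempty (Fin T → Fin n) := ⟨fun _ => a₀⟩
  obtain ⟨g, hg⟩ : ∃ g : Fin m → (Fin T → Fin n), Function.Surjective g :=
    ⟨Function.invFun emb, Function.invFun_surjective emb.injective⟩
  refine ⟨fun i => prodSeq A' (ext a₀ (g i)) T, fun i => block_mem hA' hT a₀ (g i), ?_⟩
  intro y hy
  have hz := transfer g hg (fun v : Fin T → Fin n => prodSeq A' (ext a₀ v) T) y hy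
  obtain ⟨x, hx, hxent⟩ := block_lower A' hT a₀ _ hz
  have h7 := hx' x (vwe_of_le A' x hx)
  have h8 := entropy_map_le g y
  have hTr : (0 : ℝ) < T := by exact_mod_cast hT
  have hlogn : 0 < Real.log n := Real.log_pos (by exact_mod_cast hn2)
  have h9 : T * (κ₁ * Real.log n) ≤ entropy y := by
    have h10 := (h7.trans hxent)
    rw [le_div_iff₀ hTr] at h10
    linarith
  have hlogm : 0 ≤ Real.log m := Real.log_nonneg (by exact_mod_cast hmpos)
  have h11 : Real.log m ≤ ((T : ℝ) + 1) * Real.log n := by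
    have h12 : ((T + 1 : ℕ) : ℝ) = (T : ℝ) + 1 := by push_cast; rfl
    rw [← h12, ← Real.log_pow]
    refine Real.log_le_log (by exact_mod_cast hmpos) ?_
    exact_mod_cast hT2.le
  have h13 : κ₀ * ((T : ℝ) + 1) ≤ κ₁ * T := by
    have h14 : 2 / (1 - κ₀) ≤ T := by
      refine hT₀.trans ?_
      have : T₀ ≤ T := by omega
      exact_mod_cast this
    rw [div_le_iff₀ (by linarith)] at h14
    rw [hκ₁]
    linarith
  calc κ * Real.log m ≤ κ₀ * Real.log m := mul_le_mul_of_nonneg_right h0' hlogm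
    _ ≤ κ₀ * (((T : ℝ) + 1) * Real.log n) := mul_le_mul_of_nonneg_left h11 h0
    _ = (κ₀ * ((T : ℝ) + 1)) * Real.log n := by ring
    _ ≤ (κ₁ * T) * Real.log n := mul_le_mul_of_nonneg_right h13 hlogn.le
    _ = T * (κ₁ * Real.log n) := by ring
    _ ≤ entropy y := h9

lemma vwe_of_dim_zero {D : ℕ} (hD : D = 0) {ι : Type} [Nonempty ι]
    (B : ι → Matrix (Fin D) (Fin D) ℝ) (x : ℕ → ι) : VeryWeaklyExtremal B x := by
  subst hD
  have h : ∀ M : Matrix (Fin 0) (Fin 0) ℝ, nrm M = 0 := fun M => by simp [nrm]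
  unfold VeryWeaklyExtremal jsr
  simp only [h, ciSup_const]

/-- The semigroup of the `d × d` matrices with entries in `R`. -/
def entriesIn (R : Subsemiring ℝ) (d : ℕ) : Subsemigroup (Matrix (Fin d) (Fin d) ℝ) where
  carrier := {M | ∀ p q, M p q ∈ R}
  mul_mem' := by
    intro M N hM hN p q
    rw [Matrix.mul_apply]
    exact R.sum_mem fun j _ => R.mul_mem (hM p j) (hN j q)

lemma pairs_of_family (R : Subsemiring ℝ) {b : ℕ} (hb : 2 ≤ b) {m d : ℕ}
    (A : Fin m → Matrix (Fin d) (Fin d) ℝ) (hm : 1 ≤ m) (hR : ∀ i p q, A i p q ∈ R)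
    (hA : ∀ x : ℕ → Fin m, VeryWeaklyExtremal A x → 0 < entropy x) {κ : ℝ} (hκ : κ < 1) :
    ∃ (D : ℕ) (B : Fin b → Matrix (Fin D) (Fin D) ℝ), 1 ≤ D ∧ (∀ i p q, B i p q ∈ R) ∧
      ∀ x : ℕ → Fin b, VeryWeaklyExtremal B x → κ * Real.log b ≤ entropy x := by
  rcases law d (entriesIn R d) with h | h
  · exfalso
    obtain ⟨x, hx1, hx2⟩ := h.1 m A hm fun i => hR i
    have h1 := hA x (vwe_of_le A x hx1)
    rw [hx2] at h1
    exact lt_irrefl _ h1
  · obtain ⟨κ₀, hκ₀⟩ : ∃ κ₀ : ℝ, κ₀ = max κ 0 := ⟨_, rfl⟩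
    have h0 : 0 ≤ κ₀ := by rw [hκ₀]; exact le_max_right _ _
    have h0' : κ ≤ κ₀ := by rw [hκ₀]; exact le_max_left _ _
    have h1 : κ₀ < 1 := by rw [hκ₀]; exact max_lt hκ one_pos
    obtain ⟨κ₁, hκ₁⟩ : ∃ κ₁ : ℝ, κ₁ = (κ₀ + 1) / 2 := ⟨_, rfl⟩
    have h2 : κ₁ < 1 := by rw [hκ₁]; linarith
    have h3 : 0 < κ₁ := by rw [hκ₁]; linarith
    obtain ⟨k₀, hk₀⟩ := exists_nat_ge (2 / (1 - κ₀))
    obtain ⟨n, A', hn2, hn, hAR, hA'⟩ := h.1 κ₁ (b ^ k₀) h2
    obtain ⟨k, hk⟩ : ∃ k : ℕ, k = Nat.clog b n := ⟨_, rfl⟩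
    have hnk : n ≤ b ^ k := by rw [hk]; exact Nat.le_pow_clog (by omega) n
    have hk1 : b ^ (k - 1) < n := by
      rw [hk]
      exact Nat.pow_pred_clog_lt_self (by omega) (by omega)
    have hkk : k₀ ≤ k := (Nat.pow_le_pow_iff_right (by omega)).mp (hn.trans hnk)
    have hkpos : 0 < k := by
      rcases Nat.eq_zero_or_pos k with h4 | h4
      · rw [h4, pow_zero] at hnk
        omega
      · exact h4
    have hne : NeZero k := ⟨hkpos.ne'⟩
    have hlogb : 0 < Real.log b := Real.log_pos (by exact_mod_cast hb)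
    have hlogn : 0 < Real.log n := Real.log_pos (by exact_mod_cast hn2)
    have hL : 0 < κ₁ * Real.log n := mul_pos h3 hlogn
    obtain ⟨D, B, hBR, hB⟩ := pair_main R A' (fun i => hAR i) (by omega) hnk hL hA'
    have hkr : (0 : ℝ) < k := by exact_mod_cast hkpos
    have hbr : (0 : ℝ) < b := by
      have : 0 < b := by omega
      exact_mod_cast this
    refine ⟨D, B, ?_, hBR, ?_⟩
    · by_contra hD
      have hbne : Nonempty (Fin b) := ⟨⟨0, by omega⟩⟩
      have h5 := hB _ (vwe_of_dim_zero (by omega) B fun _ => ⟨0, by omega⟩)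
      rw [entropy_const, mul_zero] at h5
      linarith
    · intro x hx
      have h5 := hB x hx
      have h6 : ((k : ℝ) - 1) * Real.log b ≤ Real.log n := by
        have h7 : ((k - 1 : ℕ) : ℝ) = (k : ℝ) - 1 := by
          rw [Nat.cast_sub (by omega)]
          simp
        rw [← h7, ← Real.log_pow]
        refine Real.log_le_log (by positivity) ?_
        exact_mod_cast hk1.le
      have h8 : κ₁ ≤ k * (κ₁ - κ₀) := by
        have h9 : 2 / (1 - κ₀) ≤ k := hk₀.trans (by exact_mod_cast hkk)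
        rw [div_le_iff₀ (by linarith)] at h9
        rw [hκ₁] at h2 ⊢
        linarith
      have h10 : κ₀ * (k * Real.log b) ≤ κ₁ * Real.log n := by
        calc κ₀ * (k * Real.log b) ≤ κ₁ * (((k : ℝ) - 1) * Real.log b) := by
              have h11 : κ₀ * k ≤ κ₁ * ((k : ℝ) - 1) := by linarith
              have h12 := mul_le_mul_of_nonneg_right h11 hlogb.le
              linarith
          _ ≤ κ₁ * Real.log n := mul_le_mul_of_nonneg_left h6 h3.le
      have h13 : k * (κ * Real.log b) ≤ k * entropy x := by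
        calc k * (κ * Real.log b) = κ * (k * Real.log b) := by ring
          _ ≤ κ₀ * (k * Real.log b) := mul_le_mul_of_nonneg_right h0' (by positivity)
          _ ≤ κ₁ * Real.log n := h10
          _ ≤ k * entropy x := h5
      exact le_of_mul_le_mul_left h13 hkr

end Pool.Agent.Lib.MP_687f9e_an
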